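import Mathlib
set_option autoImplicit false

/-!
The simplest cubic fields.
-/

namespace Pool.Agent.V8H65.K2

open Polynomial NumberField

/-- the polynomial `X ^ 3 - a X ^ 2 - (a + 3) X - 1` -/
noncomputable def spol (a : ℤ) : ℚ[X] := X ^ 3 - C (a : ℚ) * X ^ 2 - C ((a : ℚ) + 3) * X - 1

theorem spol_eq (a : ℤ) : spol a = X ^ 3 + (-(C (a : ℚ) * X ^ 2 + C ((a : ℚ) + 3) * X + 1)) := by
  unfold spol
  ring

theorem deg_low (a : ℤ) :
    (-(C (a : ℚ) * X ^ 2 + C ((a : ℚ) + 3) * X + 1 : ℚ[X])).degree < 3 := by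
  rw [degree_neg, ← C_1]
  exact degree_quadratic_lt

theorem natDegree_spol (a : ℤ) : (spol a).natDegree = 3 := by
  rw [spol_eq]
  have h := deg_low a
  rw [natDegree_add_eq_left_of_degree_lt (by rw [degree_X_pow]; exact h), natDegree_X_pow]

theorem monic_spol (a : ℤ) : (spol a).Monic := by
  rw [spol_eq]
  exact monic_X_pow_add (deg_low a)

theorem eval_spol {R : Type*} [CommRing R] [Algebra ℚ R] (a : ℤ) (x : R) :
    (spol a).aeval x = x ^ 3 - (a : R) * x ^ 2 - ((a : R) + 3) * x - 1 := by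
  unfold spol
  simp [map_ofNat]

theorem irreducible_spol (a : ℤ) : Irreducible (spol a) := by
  rw [(monic_spol a).irreducible_iff_roots_eq_zero_of_degree_le_three
    (by rw [natDegree_spol]; norm_num) (by rw [natDegree_spol])]
  rw [Multiset.eq_zero_iff_forall_notMem]
  intro r hr
  rw [mem_roots (monic_spol a).ne_zero, IsRoot.def] at hr
  have h1 : r ^ 3 - (a : ℚ) * r ^ 2 - ((a : ℚ) + 3) * r - 1 = 0 := by
    have := eval_spol (R := ℚ) a r
    rw [← this, coe_aeval_eq_eval]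
    exact hr
  -- `r` is an integer
  have hint : IsIntegral ℤ r := by
    refine ⟨X ^ 3 - C a * X ^ 2 - C (a + 3) * X - 1, ?_, ?_⟩
    · have e : (X ^ 3 - C a * X ^ 2 - C (a + 3) * X - 1 : ℤ[X]) =
        X ^ 3 + (-(C a * X ^ 2 + C (a + 3) * X + C 1)) := by
        rw [C_1]
        ring
      rw [e]
      refine monic_X_pow_add ?_
      rw [degree_neg]
      exact degree_quadratic_lt
    · simp only [eval₂_sub, eval₂_mul, eval₂_pow, eval₂_X, eval₂_C, eval₂_one]
      simp only [eq_intCast]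
      push_cast
      linear_combination h1
  obtain ⟨n, hn⟩ := IsIntegrallyClosed.isIntegral_iff.1 hint
  have hn' : r = (n : ℚ) := by
    rw [← hn]
    simp
  rw [hn'] at h1
  have h2 : n ^ 3 - a * n ^ 2 - (a + 3) * n - 1 = 0 := by exact_mod_cast h1
  have h3 : n * (n ^ 2 - a * n - (a + 3)) = 1 := by linear_combination h2
  rcases Int.isUnit_iff.1 (IsUnit.of_mul_eq_one _ h3) with h | h
  · rw [h] at h2
    omega
  · rw [h] at h2
    ring_nf at h2
    omega

/-- real roots -/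
theorem exists_roots (a : ℤ) : ∃ r : Fin 3 → ℝ, Function.Injective r ∧
    ∀ i, r i ^ 3 - (a : ℝ) * r i ^ 2 - ((a : ℝ) + 3) * r i - 1 = 0 := by
  set f : ℝ → ℝ := fun x => x ^ 3 - (a : ℝ) * x ^ 2 - ((a : ℝ) + 3) * x - 1 with hf
  have hc : Continuous f := by
    rw [hf]
    fun_prop
  set M : ℝ := |(a : ℝ)| + 3 with hM
  have h1 := le_abs_self (a : ℝ)
  have h2 := neg_abs_le (a : ℝ)
  have h0 := abs_nonneg (a : ℝ)
  have hM3 : 3 ≤ M := by linarith
  have fM : 0 < f M := by
    have e : f M = M ^ 2 * (M - a) - (a + 3) * M - 1 := by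
      simp only [hf]
      ring
    have e1 : M ^ 2 * 3 ≤ M ^ 2 * (M - a) := by
      gcongr
      linarith
    have e2 : ((a : ℝ) + 3) * M ≤ M * M := by
      gcongr
      linarith
    rw [e]
    nlinarith
  have fM' : f (-M) < 0 := by
    have e : f (-M) = -(M ^ 2 * (M + a)) + (a + 3) * M - 1 := by
      simp only [hf]
      ring
    have e1 : M ^ 2 * 3 ≤ M ^ 2 * (M + a) := by
      gcongr
      linarith
    have e2 : ((a : ℝ) + 3) * M ≤ M * M := by
      gcongr
      linarith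
    rw [e]
    nlinarith
  have f0 : f 0 = -1 := by simp [hf]
  have f1 : f (-1) = 1 := by
    simp only [hf]
    ring
  obtain ⟨x, hx, hx0⟩ : ∃ x ∈ Set.Icc (-M) (-1), f x = 0 :=
    intermediate_value_Icc (by linarith) hc.continuousOn ⟨fM'.le, by rw [f1]; norm_num⟩
  obtain ⟨y, hy, hy0⟩ : ∃ y ∈ Set.Icc (-1) 0, f y = 0 :=
    intermediate_value_Icc' (by norm_num) hc.continuousOn ⟨by rw [f0]; norm_num,
      by rw [f1]; norm_num⟩
  obtain ⟨z, hz, hz0⟩ : ∃ z ∈ Set.Icc 0 M, f z = 0 :=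
    intermediate_value_Icc (by linarith) hc.continuousOn ⟨by rw [f0]; norm_num, fM.le⟩
  have hxy : x < y := by
    refine lt_of_le_of_ne (hx.2.trans hy.1) fun h => ?_
    have : x = -1 := le_antisymm hx.2 (by rw [h]; exact hy.1)
    rw [this, f1] at hx0
    norm_num at hx0
  have hyz : y < z := by
    refine lt_of_le_of_ne (hy.2.trans hz.1) fun h => ?_
    have : y = 0 := le_antisymm hy.2 (by rw [h]; exact hz.1)
    rw [this, f0] at hy0
    norm_num at hy0
  refine ⟨![x, y, z], ?_, ?_⟩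
  · intro i j hij
    fin_cases i <;> fin_cases j <;> simp at hij ⊢ <;> linarith
  · intro i
    fin_cases i
    · exact hx0
    · exact hy0
    · exact hz0

instance (a : ℤ) : Fact (Irreducible (spol a)) := ⟨irreducible_spol a⟩

/-- the simplest cubic field -/
abbrev SF (a : ℤ) : Type := AdjoinRoot (spol a)

noncomputable instance (a : ℤ) : CharZero (SF a) :=
  charZero_of_injective_algebraMap (algebraMap ℚ (SF a)).injective

theorem finrank_SF (a : ℤ) : Module.finrank ℚ (SF a) = 3 := by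
  have h := (AdjoinRoot.powerBasis (monic_spol a).ne_zero).finrank
  rw [h, AdjoinRoot.powerBasis_dim, natDegree_spol]

instance (a : ℤ) : NumberField (SF a) where
  to_charZero := inferInstance
  to_finiteDimensional := Module.finite_of_finrank_pos (by rw [finrank_SF]; norm_num)

/-- the generator -/
noncomputable def rho (a : ℤ) : SF a := AdjoinRoot.root (spol a)

theorem rho_eq (a : ℤ) : rho a ^ 3 - (a : SF a) * rho a ^ 2 - ((a : SF a) + 3) * rho a - 1 = 0 := by
  rw [← eval_spol]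
  exact AdjoinRoot.eval₂_root (spol a)

theorem exists_embeddings (a : ℤ) : ∃ s : Fin 3 → (SF a →+* ℝ), Function.Injective s := by
  obtain ⟨r, hr, h⟩ := exists_roots a
  have h1 : ∀ i, (spol a).eval₂ (algebraMap ℚ ℝ) (r i) = 0 := by
    intro i
    have h1 := eval_spol a (r i)
    rw [h i] at h1
    exact h1
  have h2 : ∀ i, AdjoinRoot.lift (algebraMap ℚ ℝ) (r i) (h1 i) (AdjoinRoot.root (spol a)) = r i :=
    fun i => AdjoinRoot.lift_root (h1 i)
  refine ⟨fun i => AdjoinRoot.lift (algebraMap ℚ ℝ) (r i) (h1 i), fun i j hij => hr ?_⟩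
  rw [← h2 i, ← h2 j]
  exact congrArg (fun f : SF a →+* ℝ => f (AdjoinRoot.root (spol a))) hij

theorem integral_rho (a : ℤ) : IsIntegral ℤ (rho a) := by
  refine ⟨X ^ 3 - C a * X ^ 2 - C (a + 3) * X - 1, ?_, ?_⟩
  · have e : (X ^ 3 - C a * X ^ 2 - C (a + 3) * X - 1 : ℤ[X]) =
      X ^ 3 + (-(C a * X ^ 2 + C (a + 3) * X + C 1)) := by
      rw [C_1]
      ring
    rw [e]
    refine monic_X_pow_add ?_
    rw [degree_neg]
    exact degree_quadratic_lt
  · simp only [eval₂_sub, eval₂_mul, eval₂_pow, eval₂_X, eval₂_C, eval₂_one]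
    simp only [eq_intCast]
    push_cast
    linear_combination rho_eq a

theorem exists_units (a : ℤ) : ∃ ε : Fin 3 → (𝓞 (SF a))ˣ, (ε 0 : SF a) = 1 ∧
    (ε 1 : SF a) = rho a ∧ (ε 2 : SF a) = -1 - rho a := by
  set r : 𝓞 (SF a) := ⟨rho a, integral_rho a⟩ with hr
  have hrv : algebraMap (𝓞 (SF a)) (SF a) r = rho a := rfl
  have h3 := rho_eq a
  have e1 : r * (r ^ 2 - (a : 𝓞 (SF a)) * r - ((a : 𝓞 (SF a)) + 3)) = 1 := by
    apply RingOfIntegers.ext
    show algebraMap (𝓞 (SF a)) (SF a) _ = algebraMap (𝓞 (SF a)) (SF a) _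
    simp only [map_mul, map_sub, map_add, map_pow, map_one, map_ofNat, map_intCast, hrv]
    linear_combination h3
  have e2 : (-1 - r) * (r ^ 2 - ((a : 𝓞 (SF a)) + 1) * r - 2) = 1 := by
    apply RingOfIntegers.ext
    show algebraMap (𝓞 (SF a)) (SF a) _ = algebraMap (𝓞 (SF a)) (SF a) _
    simp only [map_mul, map_sub, map_add, map_pow, map_one, map_ofNat, map_intCast, map_neg, hrv]
    linear_combination -h3
  refine ⟨![1, Units.mkOfMulEqOne _ _ e1, Units.mkOfMulEqOne _ _ e2], ?_, ?_, ?_⟩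
  · simp
  · exact hrv
  · show algebraMap (𝓞 (SF a)) (SF a) (-1 - r) = _
    rw [map_sub, map_neg, map_one, hrv]

end Pool.Agent.V8H65.K2
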