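import Pool.Agent.V8H65.K2.Comb
set_option autoImplicit false

/-!
The curve `(1 - y²) ∏ (1 - ε_i x) = 1`, `ε 0 + ε 1 + ε 2 = 0`.
-/

namespace Pool.Agent.V8H65.K2

open Pool.Agent.TH826.MK (Torus symb KQ Unramified)

open Pool.Agent.TH826.MH (eqn)

open Pool.Agent.TH265.U (toLoc liftLoc liftLoc_toLoc isUnit_toLoc)

open Pool.Agent.TH265.V

universe u v

section alg

variable {K : Type u} [Field K]

theorem prim2 [CharZero K] : IsPrimitiveRoot (-1 : K) (1 + 1) := by
  have : orderOf (-1 : K) = 2 := by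
    rw [orderOf_eq_prime_iff]
    constructor
    · norm_num
    · intro h
      have h1 : (2 : K) = 0 := by linear_combination (-1 : K) * h
      norm_num at h1
  have h2 := IsPrimitiveRoot.orderOf (-1 : K)
  rw [this] at h2
  exact h2

theorem al_ne_zero' {ε : Fin 3 → K} (hε : ∀ i, ε i ≠ 0) (i : Fin (2 + 1)) : al ε i ≠ 0 :=
  inv_ne_zero (hε i)

theorem eqn_crv [CharZero K] {ε : Fin 3 → K} (hε : ∀ i, ε i ≠ 0) :
    eqn (lm (al ε)) (rts 1 (-1) (al ε)) = crv ε := by
  rw [eqn_eq prim2 (al_ne_zero' hε)]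
  unfold crv cub al
  simp only [inv_inv]

theorem isDomain_crv [CharZero K] {ε : Fin 3 → K} (hε : ∀ i, ε i ≠ 0)
    (hinj : Function.Injective ε) : IsDomain (Crv 1 (-1) (al ε)) := by
  refine Pool.Agent.TH826.MH.isDomain_CRing (m := 0) (lm (al ε)) (rts 1 (-1) (al ε))
    (lm_ne_zero (al_ne_zero' hε)) ?_
  intro k
  refine Fin.cases ?_ (fun l => ?_) k
  · intro i j hij
    exact Fin.ext ((prim2 (K := K)).pow_inj i.isLt j.isLt hij)
  · intro i j hij
    exact hinj (inv_injective hij)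

theorem unramified_crv [CharZero K] {ε : Fin 3 → K} (hε : ∀ i, ε i ≠ 0)
    (hi : ∀ i, IsIntegral ℤ (ε i)) (hi' : ∀ i, IsIntegral ℤ (ε i)⁻¹)
    (hinj : Function.Injective ε) (hx : fX 1 (-1) (al ε) ≠ 0) :
    UnramifiedSymbols.{u, v} 1 (-1) (al ε) := by
  intro L _ _ _
  have hdom := isDomain_crv hε hinj
  have hinj' : Function.Injective (algebraMap (Crv 1 (-1) (al ε)) L) :=
    IsFractionRing.injective _ _
  have hx1 : algebraMap (Crv 1 (-1) (al ε)) L (fX 1 (-1) (al ε)) ≠ 0 := by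
    rw [Ne, map_eq_zero_iff _ hinj']
    exact hx
  exact ⟨liftLoc (fX 1 (-1) (al ε)) (algebraMap (Crv 1 (-1) (al ε)) L) hx1,
    fun b => liftLoc_toLoc _ _ _ _,
    fun s => sym_mem_unramified _ prim2 (fun i => hi' i) (fun i => by
      show IsIntegral ℤ (ε i)⁻¹⁻¹
      rw [inv_inv]
      exact hi i) (al_ne_zero' hε) s⟩

theorem s2_ne_zero {ε : Fin 3 → K} (σ : K →+* ℝ) (hε : ∀ i, ε i ≠ 0) (hsum : ∑ i, ε i = 0) :
    s2 ε ≠ 0 := by
  intro h
  have h1 := congrArg σ h
  have h2 := congrArg σ hsum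
  unfold s2 at h1
  rw [Fin.sum_univ_three] at h2
  simp only [map_add, map_mul, map_zero] at h1 h2
  have h3 : σ (ε 0) ≠ 0 := (map_ne_zero σ).2 (hε 0)
  have h4 : σ (ε 2) = -(σ (ε 0) + σ (ε 1)) := by linarith
  rw [h4] at h1
  have h5 : 0 < σ (ε 0) ^ 2 := by positivity
  nlinarith [sq_nonneg (σ (ε 0) + 2 * σ (ε 1))]

theorem cub_eq (ε : Fin 3 → K) (hsum : ∑ i, ε i = 0) : cub ε = 1 + MvPolynomial.X 1 ^ 2 *
    (MvPolynomial.C (s2 ε) - MvPolynomial.C (s3 ε) * MvPolynomial.X 1) := by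
  have h1 : (MvPolynomial.C (ε 2) : MvPolynomial (Fin (1 + 1)) K) =
      -(MvPolynomial.C (ε 0) + MvPolynomial.C (ε 1)) := by
    rw [Fin.sum_univ_three] at hsum
    rw [← map_add, ← map_neg]
    congr 1
    linear_combination hsum
  unfold cub s2 s3
  rw [Fin.prod_univ_three]
  simp only [map_add, map_mul, h1]
  ring

/-- the function `W = y P / x` satisfies `W² = quartic(x)` -/
theorem quartic_eq (ε : Fin 3 → K) (hsum : ∑ i, ε i = 0) :
    (MvPolynomial.X 0 * cub ε) ^ 2 - MvPolynomial.X 1 ^ 2 *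
      (quartic ε).aeval (MvPolynomial.X 1 : MvPolynomial (Fin (1 + 1)) K) = -(cub ε) * crv ε := by
  have h1 := cub_eq ε hsum
  have h2 : (quartic ε).aeval (MvPolynomial.X 1 : MvPolynomial (Fin (1 + 1)) K) =
      (MvPolynomial.C (s2 ε) - MvPolynomial.C (s3 ε) * MvPolynomial.X 1) * cub ε := by
    unfold quartic cub
    simp only [map_mul, map_sub, map_prod, Polynomial.aeval_C, Polynomial.aeval_X, map_one]
    rfl
  rw [h2]
  unfold crv
  linear_combination (cub ε) * h1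

theorem quartic_separable {ε : Fin 3 → K} (σ : K →+* ℝ) (hε : ∀ i, ε i ≠ 0)
    (hsum : ∑ i, ε i = 0) (hinj : Function.Injective ε) :
    (quartic ε).Separable ∧ (quartic ε).natDegree = 4 := by
  have hs2 := s2_ne_zero σ hε hsum
  have hs3 : s3 ε ≠ 0 := mul_ne_zero (mul_ne_zero (hε 0) (hε 1)) (hε 2)
  -- factors
  have hlin : ∀ (a b : K), b ≠ 0 → Polynomial.C a - Polynomial.C b * Polynomial.X =
      Polynomial.C (-b) * (Polynomial.X - Polynomial.C (a / b)) := by
    intro a b hb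
    rw [mul_sub, ← map_mul, neg_mul, mul_div_cancel₀ _ hb, map_neg, map_neg]
    ring
  set r : Fin 4 → K := Fin.cons (s2 ε / s3 ε) (fun i => (ε i)⁻¹) with hr
  have e1 : quartic ε = Polynomial.C (-(s3 ε) * ∏ i, -(ε i)) *
      ∏ m, (Polynomial.X - Polynomial.C (r m)) := by
    have h0 : ∏ m, (Polynomial.X - Polynomial.C (r m)) =
        (Polynomial.X - Polynomial.C (s2 ε / s3 ε)) *
          ∏ i : Fin 3, (Polynomial.X - Polynomial.C (ε i)⁻¹) := by
      rw [Fin.prod_univ_succ]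
      simp only [hr, Fin.cons_zero, Fin.cons_succ]
    unfold quartic
    rw [h0, hlin _ _ hs3]
    have h1 : ∀ i, (1 - Polynomial.C (ε i) * Polynomial.X : Polynomial K) =
        Polynomial.C (-(ε i)) * (Polynomial.X - Polynomial.C (ε i)⁻¹) := by
      intro i
      have := hlin 1 (ε i) (hε i)
      rw [map_one, one_div] at this
      exact this
    simp only [h1]
    rw [Finset.prod_mul_distrib, map_mul, map_prod]
    ring
  have hc : (-(s3 ε) * ∏ i, -(ε i)) ≠ 0 :=
    mul_ne_zero (neg_ne_zero.2 hs3) (Finset.prod_ne_zero_iff.2 fun i _ => neg_ne_zero.2 (hε i))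
  have hrinj : Function.Injective r := by
    have h0 : ∀ i, s2 ε / s3 ε ≠ (ε i)⁻¹ := by
      intro i h
      have h1 : s2 ε * ε i = s3 ε := by
        rw [div_eq_iff hs3] at h
        rw [h]
        have := hε i
        field_simp
      have h2 : ε i ^ 3 + s2 ε * ε i - s3 ε = 0 := by
        unfold s2 s3
        rw [Fin.sum_univ_three] at hsum
        have h3 : ε 2 = -(ε 0 + ε 1) := by linear_combination hsum
        fin_cases i <;> simp only [Fin.zero_eta, Fin.mk_one, Fin.reduceFinMk, Fin.isValue] <;>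
          rw [h3] <;> ring
      rw [h1] at h2
      have h4 : ε i ^ 3 = 0 := by linear_combination h2
      exact hε i (pow_eq_zero_iff (by norm_num) |>.1 h4)
    rw [hr, Fin.cons_injective_iff]
    refine ⟨?_, fun i j hij => hinj (inv_injective hij)⟩
    rintro ⟨i, hi⟩
    exact h0 i hi.symm
  constructor
  · rw [e1]
    refine (Polynomial.separable_prod_X_sub_C_iff.2 hrinj).unit_mul ?_
    exact Polynomial.isUnit_C.2 (isUnit_iff_ne_zero.2 hc)
  · rw [e1, Polynomial.natDegree_C_mul hc, Polynomial.natDegree_prod_of_monic _ _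
      (fun m _ => Polynomial.monic_X_sub_C _)]
    simp

theorem pderiv_cub_zero (ε : Fin 3 → K) : MvPolynomial.pderiv 0 (cub ε) = 0 := by
  have h10 : MvPolynomial.pderiv (0 : Fin (1 + 1)) (MvPolynomial.X 1 : MvPolynomial _ K) = 0 :=
    MvPolynomial.pderiv_X_of_ne (by decide)
  unfold cub
  rw [Fin.prod_univ_three]
  simp only [MvPolynomial.pderiv_mul, map_sub, h10, MvPolynomial.pderiv_C,
    MvPolynomial.pderiv_one]
  ring

/-- the curve is smooth at the points with `x ≠ 0` -/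
theorem smoothOff_crv {ε : Fin 3 → K} (σ : K →+* ℝ) (hε : ∀ i, ε i ≠ 0) (hsum : ∑ i, ε i = 0)
    (ρ : K →+* ℂ) : SmoothOff (crv ε) ρ := by
  have hs2 := s2_ne_zero σ hε hsum
  have hs3 : s3 ε ≠ 0 := mul_ne_zero (mul_ne_zero (hε 0) (hε 1)) (hε 2)
  have ha : ρ (s2 ε) ≠ 0 := (map_ne_zero ρ).2 hs2
  have hb : ρ (s3 ε) ≠ 0 := (map_ne_zero ρ).2 hs3
  have h00 : MvPolynomial.pderiv (0 : Fin (1 + 1)) (MvPolynomial.X 0 : MvPolynomial _ K) = 1 :=
    MvPolynomial.pderiv_X_self 0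
  have h01 : MvPolynomial.pderiv (1 : Fin (1 + 1)) (MvPolynomial.X 0 : MvPolynomial _ K) = 0 :=
    MvPolynomial.pderiv_X_of_ne (by decide)
  have h11 : MvPolynomial.pderiv (1 : Fin (1 + 1)) (MvPolynomial.X 1 : MvPolynomial _ K) = 1 :=
    MvPolynomial.pderiv_X_self 1
  have d0 : MvPolynomial.pderiv 0 (crv ε) = -(2 * MvPolynomial.X 0) * cub ε := by
    unfold crv
    simp only [map_sub, MvPolynomial.pderiv_mul, MvPolynomial.pderiv_pow, h00,
      pderiv_cub_zero, MvPolynomial.pderiv_one]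
    push_cast
    ring
  have d1 : MvPolynomial.pderiv 1 (crv ε) = (1 - MvPolynomial.X 0 ^ 2) *
      (2 * MvPolynomial.X 1 * MvPolynomial.C (s2 ε) -
        3 * MvPolynomial.X 1 ^ 2 * MvPolynomial.C (s3 ε)) := by
    unfold crv
    rw [cub_eq ε hsum]
    simp only [map_sub, map_add, MvPolynomial.pderiv_mul, MvPolynomial.pderiv_pow, h01, h11,
      MvPolynomial.pderiv_C, MvPolynomial.pderiv_one]
    push_cast
    ring
  intro x hx hx1
  by_contra hcon
  push Not at hcon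
  have g0 := hcon 0
  have g1 := hcon 1
  rw [d0] at g0
  rw [d1] at g1
  unfold crv at hx
  rw [cub_eq ε hsum] at hx g0
  simp only [MvPolynomial.eval₂_sub, MvPolynomial.eval₂_mul, MvPolynomial.eval₂_neg,
    MvPolynomial.eval₂_add, MvPolynomial.eval₂_pow, MvPolynomial.eval₂_X, MvPolynomial.eval₂_C,
    MvPolynomial.eval₂_one, MvPolynomial.eval₂_ofNat] at hx g0 g1
  set A := ρ (s2 ε)
  set B := ρ (s3 ε)
  have hP : 1 + x 1 ^ 2 * (A - B * x 1) ≠ 0 := by
    intro h
    rw [h, mul_zero, zero_sub] at hx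
    norm_num at hx
  have hy : x 0 = 0 := by
    have h2 := (mul_eq_zero.1 g0).resolve_right hP
    rw [neg_eq_zero] at h2
    exact (mul_eq_zero.1 h2).resolve_left two_ne_zero
  rw [hy] at hx g1
  have h3 : A = B * x 1 := by
    have h4 : x 1 ^ 2 * (A - B * x 1) = 0 := by linear_combination hx
    have h5 := (mul_eq_zero.1 h4).resolve_left (pow_ne_zero 2 hx1)
    linear_combination h5
  have h6 : x 1 * A = 0 := by
    have h7 : (1 - (0 : ℂ) ^ 2) * (2 * x 1 * A - 3 * x 1 ^ 2 * B) = -(x 1 * A) := by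
      rw [h3]
      ring
    rw [h7] at g1
    exact neg_eq_zero.1 g1
  exact mul_ne_zero hx1 ha h6

end alg

end Pool.Agent.V8H65.K2
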