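import Pool.Agent.V8H65.K2.Cub
set_option autoImplicit false

/-!
The branch `X(f)` of the solutions of `c X ^ 3 - A X + B = 0`, `c = (f + 1/f + 2)/4`, near the unit circle,
`A = 1 - s + s ^ 2`, `B = s (1 - s)`, `0 < s < 1/2`.
-/

namespace Pool.Agent.V8H65.K2

open Filter Topology

/-- `A` -/
noncomputable def cA (s : ℝ) : ℝ := 1 - s + s ^ 2

/-- `B` -/
noncomputable def cB (s : ℝ) : ℝ := s * (1 - s)

/-- `B ^ 2 / A ^ 3` -/
noncomputable def k0 (s : ℝ) : ℝ := cB s ^ 2 / cA s ^ 3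

/-- `c = (f + 1/f + 2)/4` -/
noncomputable def cc (f : ℂ) : ℂ := (f + f⁻¹ + 2) / 4

/-- the domain of the branch -/
def UU (s : ℝ) : Set ℂ := {f | f ≠ 0 ∧ ‖(k0 s : ℂ) * cc f‖ < 4 / 27}

/-- the branch -/
noncomputable def XX (s : ℝ) (f : ℂ) : ℂ := ((cB s / cA s : ℝ) : ℂ) * TT ((k0 s : ℂ) * cc f)

variable {s : ℝ}

theorem cA_pos (s : ℝ) : 0 < cA s := by
  unfold cA
  nlinarith [sq_nonneg (s - 1 / 2)]

theorem cB_pos (h0 : 0 < s) (h1 : s < 1 / 2) : 0 < cB s := by
  unfold cB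
  exact mul_pos h0 (by linarith)

theorem k0_pos (h0 : 0 < s) (h1 : s < 1 / 2) : 0 < k0 s := by
  have := cA_pos s
  have := cB_pos h0 h1
  unfold k0
  positivity

theorem k0_lt (h0 : 0 < s) (h1 : s < 1 / 2) : k0 s < 4 / 27 := by
  have hA := cA_pos s
  unfold k0
  rw [div_lt_div_iff₀ (by positivity) (by norm_num)]
  have h2 : 4 * cA s ^ 3 - cB s ^ 2 * 27 = ((1 - 2 * s) * (1 + s) * (2 - s)) ^ 2 := by
    unfold cA cB
    ring
  have h3 : 0 < ((1 - 2 * s) * (1 + s) * (2 - s)) ^ 2 := by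
    have a1 : 0 < 1 - 2 * s := by linarith
    have a2 : 0 < 1 + s := by linarith
    have a3 : 0 < 2 - s := by linarith
    positivity
  linarith

theorem continuousAt_cc {f : ℂ} (hf : f ≠ 0) : ContinuousAt cc f := by
  unfold cc
  exact ((continuousAt_id.add (continuousAt_inv₀ hf)).add continuousAt_const).div_const 4

theorem analyticAt_cc {f : ℂ} (hf : f ≠ 0) : AnalyticAt ℂ cc f := by
  unfold cc
  exact ((analyticAt_id.add (analyticAt_id.inv hf)).add analyticAt_const).div analyticAt_const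
    (by norm_num)

theorem UU_nhds {f : ℂ} (hf : f ∈ UU s) : ∀ᶠ z in 𝓝 f, z ∈ UU s := by
  obtain ⟨h1, h2⟩ := hf
  have h3 : ContinuousAt (fun z => ‖(k0 s : ℂ) * cc z‖) f :=
    (continuousAt_const.mul (continuousAt_cc h1)).norm
  filter_upwards [h3.eventually_lt continuousAt_const h2, eventually_ne_nhds h1] with z a1 a2
  exact ⟨a2, a1⟩

theorem analyticAt_XX {f : ℂ} (hf : f ∈ UU s) : AnalyticAt ℂ (XX s) f := by
  obtain ⟨h1, h2⟩ := hf
  unfold XX
  refine analyticAt_const.mul ?_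
  have h3 : AnalyticAt ℂ (fun z => (k0 s : ℂ) * cc z) f := analyticAt_const.mul (analyticAt_cc h1)
  exact (analyticAt_TT h2).comp_of_eq h3 rfl

theorem XX_eq {f : ℂ} (hf : f ∈ UU s) : cc f * XX s f ^ 3 - cA s * XX s f + cB s = 0 := by
  obtain ⟨h1, h2⟩ := hf
  have hA : (cA s : ℂ) ≠ 0 := by exact_mod_cast (cA_pos s).ne'
  have h3 := TT_eq h2.le
  set T := TT ((k0 s : ℂ) * cc f) with hT
  have h4 : XX s f = ((cB s : ℂ) / cA s) * T := by
    unfold XX
    push_cast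
    rfl
  have h5 : (k0 s : ℂ) = (cB s : ℂ) ^ 2 / (cA s : ℂ) ^ 3 := by
    unfold k0
    push_cast
    rfl
  rw [h5] at h3
  rw [h4]
  have h6 : T * (cA s : ℂ) ^ 3 = (cA s : ℂ) ^ 3 + (cB s : ℂ) ^ 2 * cc f * T ^ 3 := by
    field_simp at h3
    linear_combination h3
  field_simp
  linear_combination (-(cB s : ℂ)) * h6

theorem XX_eq' {f : ℂ} (hf : f ∈ UU s) : (1 - cc f) * XX s f ^ 3 =
    (XX s f - s) * (XX s f - (1 - s)) * (XX s f + 1) := by
  have h := XX_eq hf
  unfold cA cB at h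
  push_cast at h
  linear_combination (-1 : ℂ) * h

theorem XX_ne_zero (h0 : 0 < s) (h1 : s < 1 / 2) {f : ℂ} (hf : f ∈ UU s) : XX s f ≠ 0 := by
  intro h
  have h2 := XX_eq hf
  rw [h] at h2
  have h3 : (cB s : ℂ) = 0 := by linear_combination h2
  have h4 := (cB_pos h0 h1).ne'
  exact h4 (by exact_mod_cast h3)

theorem cc_circle {f : ℂ} (hf : ‖f‖ = 1) : cc f = (((1 + f.re) / 2 : ℝ) : ℂ) := by
  have h1 : f⁻¹ = (starRingEnd ℂ) f := by
    rw [Complex.inv_def, Complex.normSq_eq_norm_sq, hf]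
    simp
  unfold cc
  rw [h1]
  apply Complex.ext
  · simp [-Complex.ofReal_div, -Complex.ofReal_add]
    ring
  · simp [-Complex.ofReal_div, -Complex.ofReal_add]

theorem re_bounds {f : ℂ} (hf : ‖f‖ = 1) : 0 ≤ (1 + f.re) / 2 ∧ (1 + f.re) / 2 ≤ 1 := by
  have h1 := Complex.abs_re_le_norm f
  rw [hf] at h1
  have := abs_le.1 h1
  constructor <;> linarith

theorem circle_mem (h0 : 0 < s) (h1 : s < 1 / 2) {f : ℂ} (hf : ‖f‖ = 1) : f ∈ UU s := by
  refine ⟨fun h => by rw [h, norm_zero] at hf; exact zero_ne_one hf, ?_⟩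
  have h2 := re_bounds hf
  have hk := k0_pos h0 h1
  rw [cc_circle hf, ← Complex.ofReal_mul, Complex.norm_real, Real.norm_eq_abs,
    abs_of_nonneg (mul_nonneg hk.le h2.1)]
  calc k0 s * ((1 + f.re) / 2) ≤ k0 s * 1 := by gcongr; exact h2.2
    _ < 4 / 27 := by rw [mul_one]; exact k0_lt h0 h1

theorem XX_circle (h0 : 0 < s) (h1 : s < 1 / 2) {f : ℂ} (hf : ‖f‖ = 1) :
    ∃ x : ℝ, XX s f = x ∧ cB s / cA s ≤ x ∧ x ≤ s := by
  have h2 := re_bounds hf
  have hk := k0_pos h0 h1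
  have hkl := k0_lt h0 h1
  have hA := cA_pos s
  have hB := cB_pos h0 h1
  have hU := circle_mem h0 h1 hf
  set c : ℝ := (1 + f.re) / 2 with hc
  have h3 : k0 s * c ≤ 4 / 27 := by
    calc k0 s * c ≤ k0 s * 1 := by gcongr; exact h2.2
      _ ≤ 4 / 27 := by rw [mul_one]; exact hkl.le
  obtain ⟨t, ht1, ht2, ht⟩ := TT_real (mul_nonneg hk.le h2.1) h3
  have hX : XX s f = ((cB s / cA s * t : ℝ) : ℂ) := by
    unfold XX
    rw [cc_circle hf, ← Complex.ofReal_mul, ht]
    push_cast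
    rfl
  refine ⟨cB s / cA s * t, hX, ?_, ?_⟩
  · have : 0 < cB s / cA s := by positivity
    nlinarith
  · set x : ℝ := cB s / cA s * t with hx
    have hx0 : 0 < x := by
      have : 0 < cB s / cA s := by positivity
      have : 0 < t := by linarith
      positivity
    have h4 := XX_eq hU
    rw [hX, cc_circle hf] at h4
    have h5 : c * x ^ 3 - cA s * x + cB s = 0 := by exact_mod_cast h4
    have h6 : x ≤ 3 / 2 * (cB s / cA s) := by
      have : 0 < cB s / cA s := by positivity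
      rw [hx]
      nlinarith
    have h7 : s ≤ 3 / 2 * (cB s / cA s) := by
      rw [← mul_div_assoc, le_div_iff₀ hA]
      unfold cA cB
      nlinarith [mul_pos h0 (by linarith : (0 : ℝ) < 1 - 2 * s)]
    by_contra hcon
    push Not at hcon
    -- the function `A x - c x ^ 3` is increasing
    have h8 : cA s * s = cB s + s ^ 3 := by
      unfold cA cB
      ring
    have h9 : 27 * cB s ^ 2 < 4 * cA s ^ 3 := by
      have := hkl
      unfold k0 at this
      rw [div_lt_div_iff₀ (by positivity) (by norm_num)] at this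
      linarith
    have h10 : x ^ 2 + x * s + s ^ 2 ≤ 3 * (3 / 2 * (cB s / cA s)) ^ 2 := by
      have e1 : x ^ 2 ≤ (3 / 2 * (cB s / cA s)) ^ 2 := pow_le_pow_left₀ hx0.le h6 2
      have e2 : s ^ 2 ≤ (3 / 2 * (cB s / cA s)) ^ 2 := pow_le_pow_left₀ h0.le h7 2
      have e3 : x * s ≤ (3 / 2 * (cB s / cA s)) ^ 2 := by
        rw [sq]
        exact mul_le_mul h6 h7 h0.le (by positivity)
      linarith
    have h11 : 3 * (3 / 2 * (cB s / cA s)) ^ 2 < cA s := by
      have e : 3 * (3 / 2 * (cB s / cA s)) ^ 2 = 27 * cB s ^ 2 / (4 * cA s ^ 2) := by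
        field_simp
        ring
      rw [e, div_lt_iff₀ (by positivity)]
      calc 27 * cB s ^ 2 < 4 * cA s ^ 3 := h9
        _ = cA s * (4 * cA s ^ 2) := by ring
    have h12 : (x - s) * (cA s - c * (x ^ 2 + x * s + s ^ 2)) = -(1 - c) * s ^ 3 := by
      linear_combination (-1 : ℝ) * h5 - h8
    have h13 : 0 < cA s - c * (x ^ 2 + x * s + s ^ 2) := by
      have e4 : c * (x ^ 2 + x * s + s ^ 2) ≤ 1 * (x ^ 2 + x * s + s ^ 2) := by
        gcongr
        exact h2.2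
      linarith
    have h14 : 0 < (x - s) * (cA s - c * (x ^ 2 + x * s + s ^ 2)) :=
      mul_pos (by linarith) h13
    have h15 : 0 ≤ (1 - c) * s ^ 3 := mul_nonneg (by linarith [h2.2]) (by positivity)
    linarith

end Pool.Agent.V8H65.K2
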