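import Pool.Agent.V8H65.K2.Units
set_option autoImplicit false

/-!
Nonvanishing of the determinant for all solutions of the unit equation in totally real cubic fields.
-/

namespace Pool.Agent.V8H65.K2

open Pool.Agent.TH826.MK (Torus symb)

open Pool.Agent.TH265.V

open NumberField

theorem exists_perm₀ : ∀ a b c : Fin 3, a ≠ b → a ≠ c → b ≠ c →
    ∃ p : Equiv.Perm (Fin 3), p 0 = a ∧ p 1 = b ∧ p 2 = c := by decide

theorem exists_perm {l₁ l₂ l₃ a b c : Fin 3} (h1 : l₁ ≠ l₂) (h2 : l₁ ≠ l₃) (h3 : l₂ ≠ l₃)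
    (g1 : a ≠ b) (g2 : a ≠ c) (g3 : b ≠ c) :
    ∃ p : Equiv.Perm (Fin 3), p l₁ = a ∧ p l₂ = b ∧ p l₃ = c := by
  obtain ⟨q, q1, q2, q3⟩ := exists_perm₀ l₁ l₂ l₃ h1 h2 h3
  obtain ⟨r, r1, r2, r3⟩ := exists_perm₀ a b c g1 g2 g3
  refine ⟨q.symm.trans r, ?_, ?_, ?_⟩
  · rw [← q1]; simp [r1]
  · rw [← q2]; simp [r2]
  · rw [← q3]; simp [r3]

/-- the index number `i` is the large one -/
def Lg (e : Fin 3 → ℝ) (i : Fin 3) : Prop := ∀ j k, j ≠ k → j ≠ i → k ≠ i → 0 < e j * e k

theorem exists_Lg {e : Fin 3 → ℝ} (h0 : ∀ i, e i ≠ 0) : ∃ i, Lg e i := by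
  have hs : ∀ i j k : Fin 3, i ≠ j → i ≠ k → j ≠ k → 0 < e j * e k → Lg e i := by
    intro i j k hij hik hjk h j' k' hj'k' hj' hk'
    have hm : ∀ m, m ≠ i → m = j ∨ m = k := by
      intro m hm
      have : m ∈ ({i, j, k} : Finset (Fin 3)) := by
        rw [← univ_three i j k hij hik hjk]
        exact Finset.mem_univ _
      simp only [Finset.mem_insert, Finset.mem_singleton] at this
      rcases this with h | h | h
      · exact absurd h hm
      · exact Or.inl h
      · exact Or.inr h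
    rcases hm j' hj' with rfl | rfl <;> rcases hm k' hk' with rfl | rfl
    · exact absurd rfl hj'k'
    · exact h
    · rw [mul_comm]; exact h
    · exact absurd rfl hj'k'
  by_contra hcon
  push Not at hcon
  have g : ∀ i j k : Fin 3, i ≠ j → i ≠ k → j ≠ k → e j * e k < 0 := by
    intro i j k hij hik hjk
    have h1 : ¬ 0 < e j * e k := fun h => hcon i (hs i j k hij hik hjk h)
    exact lt_of_le_of_ne (not_lt.1 h1) (mul_ne_zero (h0 j) (h0 k))
  have g0 := g 0 1 2 (by decide) (by decide) (by decide)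
  have g1 := g 1 2 0 (by decide) (by decide) (by decide)
  have g2 := g 2 0 1 (by decide) (by decide) (by decide)
  have h3 : 0 < (e 1 * e 2) * (e 2 * e 0) := mul_pos_of_neg_of_neg g0 g1
  have h4 : (e 1 * e 2) * (e 2 * e 0) * (e 0 * e 1) < 0 := mul_neg_of_pos_of_neg h3 g2
  have h5 : (e 1 * e 2) * (e 2 * e 0) * (e 0 * e 1) = (e 0 * e 1 * e 2) ^ 2 := by ring
  rw [h5] at h4
  exact absurd h4 (not_lt.2 (sq_nonneg _))

/-- comparison of absolute values -/
theorem Lg.abs_lt {e : Fin 3 → ℝ} (h0 : ∀ i, e i ≠ 0) (hsum : ∑ m, e m = 0) {i j k : Fin 3}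
    (hij : i ≠ j) (hik : i ≠ k) (hjk : j ≠ k) (h : Lg e i) : |e j| < |e i| := by
  have h1 := h j k hjk hij.symm hik.symm
  rw [sum_three e hij hik hjk] at hsum
  have h2 : e i = -(e j + e k) := by linarith
  have hj := h0 j
  have hk := h0 k
  rw [h2, abs_neg]
  rcases lt_or_gt_of_ne hj with h3 | h3
  · have h4 : e k < 0 := by
      by_contra h5
      push Not at h5
      nlinarith
    rw [abs_of_neg h3, abs_of_neg (by linarith)]
    linarith
  · have h4 : 0 < e k := by
      by_contra h5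
      push Not at h5
      nlinarith
    rw [abs_of_pos h3, abs_of_pos (by linarith)]
    linarith

/-- quotients at a place where `i` is large -/
theorem Lg.quot {e : Fin 3 → ℝ} (h0 : ∀ i, e i ≠ 0) (hsum : ∑ m, e m = 0) {i i' j : Fin 3}
    (h1 : i ≠ i') (h2 : i ≠ j) (h3 : i' ≠ j) (h : Lg e i) :
    0 < -(e i' / e i) ∧ -(e i' / e i) < 1 := by
  have hpos := h i' j h3 h1.symm h2.symm
  rw [sum_three e h1 h2 h3] at hsum
  have h4 : e i = -(e i' + e j) := by linarith
  have hi := h0 i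
  have hj := h0 j
  have hi' := h0 i'
  have hs : e i' + e j ≠ 0 := by
    intro h5
    apply hi
    rw [h4, h5, neg_zero]
  have h5 : -(e i' / e i) = e i' * (e i' + e j) / (e i' + e j) ^ 2 := by
    rw [h4]
    field_simp
  have h6 : 1 - -(e i' / e i) = e j * (e i' + e j) / (e i' + e j) ^ 2 := by
    rw [h5]
    field_simp
    ring
  have h7 : 0 < (e i' + e j) ^ 2 := by positivity
  constructor
  · rw [h5]
    have : 0 < e i' * (e i' + e j) := by nlinarith [mul_self_nonneg (e i')]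
    positivity
  · have : 0 < e j * (e i' + e j) := by nlinarith [mul_self_nonneg (e j)]
    have : 0 < 1 - -(e i' / e i) := by
      rw [h6]
      positivity
    linarith

variable {K : Type*} [Field K] [NumberField K]

theorem units_ne (hK : Module.finrank ℚ K = 3) {s : Fin 3 → (K →+* ℝ)}
    (hs : Function.Injective s) (ε : Fin 3 → (𝓞 K)ˣ) (hsum : ∑ m, (ε m : K) = 0) {m m' : Fin 3}
    (hmm : m ≠ m') : (ε m : K) ≠ ε m' := by
  have hN : ∀ m, |∏ l, s l (ε m : K)| = 1 := fun m => unit_norm hK hs (ε m)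
  have hthird : ∀ m m' : Fin 3, m ≠ m' → ∃ i, m ≠ i ∧ m' ≠ i := by decide
  intro h
  obtain ⟨i, h1, h2⟩ := hthird m m' hmm
  rw [sum_three (fun m => (ε m : K)) hmm h1 h2] at hsum
  have h3 : (ε i : K) = -2 * ε m := by
    linear_combination hsum + h
  have h4 := hN i
  have h5 := hN m
  simp only [h3, map_mul, map_neg, map_ofNat, Fin.prod_univ_three] at h4 h5
  have h6 : -2 * s 0 (ε m : K) * (-2 * s 1 (ε m : K)) * (-2 * s 2 (ε m : K)) =
      (-8) * (s 0 (ε m : K) * s 1 (ε m : K) * s 2 (ε m : K)) := by ring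
  rw [h6, abs_mul, h5] at h4
  norm_num at h4

theorem exists_det (hK : Module.finrank ℚ K = 3) {s : Fin 3 → (K →+* ℝ)}
    (hs : Function.Injective s) (ε : Fin 3 → (𝓞 K)ˣ) (hsum : ∑ m, (ε m : K) = 0) :
    ∃ Γ : Fin 3 → Torus (Opn 1 (-1) (al fun m => (ε m : K))) 1,
      (∀ l θ x, (Γ l).e θ (cst0 1 (-1) (al fun m => (ε m : K)) x) = cpx (s l) x) ∧
      (Matrix.of fun l m => rg (fun m => (ε m : K)) (Γ l) m).det ≠ 0 := by
  have hε : ∀ m, (ε m : K) ≠ 0 := fun m => NumberField.Units.coe_ne_zero (ε m)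
  have hN : ∀ m, |∏ l, s l (ε m : K)| = 1 := fun m => unit_norm hK hs (ε m)
  have hthird : ∀ m m' : Fin 3, m ≠ m' → ∃ i, m ≠ i ∧ m' ≠ i := by decide
  have hne : ∀ m m', m ≠ m' → (ε m : K) ≠ ε m' := fun m m' h => units_ne hK hs ε hsum h
  set e : Fin 3 → Fin 3 → ℝ := fun l m => s l (ε m : K) with he
  have he0 : ∀ l m, e l m ≠ 0 := fun l m => (map_ne_zero _).2 (hε m)
  have hes : ∀ l, ∑ m, e l m = 0 := by
    intro l
    have := congrArg (s l) hsum
    rwa [map_sum, map_zero] at this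
  choose lam hlam using fun l => exists_Lg (he0 l)
  by_cases hinj : Function.Injective lam
  · refine det_of_A s _ hε hsum hne
      (Equiv.ofBijective lam (Finite.injective_iff_bijective.1 hinj)) fun l j k h1 h2 h3 => ?_
    exact hlam l j k h1 h2 h3
  · have hex : ∃ l₁ l₂, l₁ ≠ l₂ ∧ lam l₁ = lam l₂ := by
      by_contra hcon
      push Not at hcon
      exact hinj fun a b hab => by
        by_contra hne
        exact hcon a b hne hab
    obtain ⟨l₁, l₂, h12, hl12⟩ := hex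
    obtain ⟨l₃, h13, h23⟩ := hthird l₁ l₂ h12
    set i := lam l₁ with hi
    have g1 : Lg (e l₁) i := hlam l₁
    have g2 : Lg (e l₂) i := by
      rw [hl12]
      exact hlam l₂
    have hpr : ∀ m, |e l₁ m| * |e l₂ m| * |e l₃ m| = 1 := by
      intro m
      have := hN m
      rw [prod_three _ h12 h13 h23, abs_mul, abs_mul] at this
      exact this
    -- the large index at the third place is different
    have hi3 : i ≠ lam l₃ := by
      intro h
      have g3 : Lg (e l₃) i := by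
        rw [h]
        exact hlam l₃
      obtain ⟨j, k, hij, hik, hjk⟩ : ∃ j k, i ≠ j ∧ i ≠ k ∧ j ≠ k := by
        have : ∀ i : Fin 3, ∃ j k, i ≠ j ∧ i ≠ k ∧ j ≠ k := by decide
        exact this i
      have a1 := g1.abs_lt (he0 l₁) (hes l₁) hij hik hjk
      have a2 := g2.abs_lt (he0 l₂) (hes l₂) hij hik hjk
      have a3 := g3.abs_lt (he0 l₃) (hes l₃) hij hik hjk
      have a4 := mul_lt_mul'' (mul_lt_mul'' a1 a2 (abs_nonneg _) (abs_nonneg _)) a3
        (by positivity) (abs_nonneg _)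
      rw [hpr, hpr] at a4
      exact lt_irrefl _ a4
    set i' := lam l₃ with hi'
    obtain ⟨j, hij, hi'j⟩ := hthird i i' hi3
    have g3 : Lg (e l₃) i' := hlam l₃
    -- the numbers `x`
    set x : Fin 3 → ℝ := fun l => -(e l i' / e l i) with hx
    have x1 := g1.quot (he0 l₁) (hes l₁) hi3 hij hi'j
    have x2 := g2.quot (he0 l₂) (hes l₂) hi3 hij hi'j
    have x3' := g3.quot (he0 l₃) (hes l₃) hi3.symm hi'j hij
    have x3 : 1 < x l₃ := by
      have h1 : x l₃ * -(e l₃ i / e l₃ i') = 1 := by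
        have := he0 l₃ i
        have := he0 l₃ i'
        simp only [hx]
        field_simp
      obtain ⟨b1, b2⟩ := x3'
      by_contra hcon
      push Not at hcon
      nlinarith
    have hxe : ∀ l, e l i' = -(x l * e l i) := by
      intro l
      have := he0 l i
      simp only [hx]
      field_simp
    have hxj : ∀ l, e l j = -((1 - x l) * e l i) := by
      intro l
      have h1 := hes l
      rw [sum_three (e l) hi3 hij hi'j, hxe] at h1
      linear_combination h1
    have hNx : |x l₁ * x l₂ * x l₃| = 1 := by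
      have h1 := hpr i'
      rw [hxe, hxe, hxe, abs_neg, abs_neg, abs_neg, abs_mul, abs_mul, abs_mul] at h1
      have h2 := hpr i
      rw [abs_mul, abs_mul]
      have h3 : |x l₁| * |e l₁ i| * (|x l₂| * |e l₂ i|) * (|x l₃| * |e l₃ i|) =
          (|x l₁| * |x l₂| * |x l₃|) * (|e l₁ i| * |e l₂ i| * |e l₃ i|) := by ring
      rw [h3, h2, mul_one] at h1
      exact h1
    have hNx' : |(1 - x l₁) * (1 - x l₂) * (1 - x l₃)| = 1 := by
      have h1 := hpr j
      rw [hxj, hxj, hxj, abs_neg, abs_neg, abs_neg, abs_mul, abs_mul, abs_mul] at h1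
      have h2 := hpr i
      rw [abs_mul, abs_mul]
      have h3 : |1 - x l₁| * |e l₁ i| * (|1 - x l₂| * |e l₂ i|) * (|1 - x l₃| * |e l₃ i|) =
          (|1 - x l₁| * |1 - x l₂| * |1 - x l₃|) * (|e l₁ i| * |e l₂ i| * |e l₃ i|) := by ring
      rw [h3, h2, mul_one] at h1
      exact h1
    obtain ⟨T, hT⟩ := int_trace hK hs (-((ε i' * (ε i)⁻¹ : (𝓞 K)ˣ) : 𝓞 K))
    have hinv : (((ε i)⁻¹ : (𝓞 K)ˣ) : K) = (ε i : K)⁻¹ := by
      refine eq_inv_of_mul_eq_one_left ?_
      rw [← map_mul, ← Units.val_mul, inv_mul_cancel, Units.val_one, map_one]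
    have hT' : x l₁ + x l₂ + x l₃ = T := by
      rw [← hT, sum_three _ h12 h13 h23]
      have h1 : ∀ l, s l (algebraMap (𝓞 K) K (-((ε i' * (ε i)⁻¹ : (𝓞 K)ˣ) : 𝓞 K))) = x l := by
        intro l
        rw [map_neg, map_neg, Units.val_mul, map_mul, map_mul]
        rw [hinv, map_inv₀]
        simp only [hx, he]
        rw [div_eq_mul_inv]
      rw [h1, h1, h1]
    obtain ⟨hc, hz⟩ := core x1.1 x1.2 x2.1 x2.2 x3 hNx hNx' hT'
    have hz' : e l₃ i = -((x l₃)⁻¹ * e l₃ i') := by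
      have : x l₃ ≠ 0 := by linarith
      rw [hxe]
      field_simp
    have hzi : 0 < (x l₃)⁻¹ ∧ (x l₃)⁻¹ ≤ 0.38 := by
      have h0 : 0 < x l₃ := by linarith
      refine ⟨inv_pos.2 h0, ?_⟩
      rw [inv_le_comm₀ h0 (by norm_num)]
      norm_num
      linarith
    have hcov : ∀ l, l = l₁ ∨ l = l₂ ∨ l = l₃ := by
      intro l
      have : l ∈ ({l₁, l₂, l₃} : Finset (Fin 3)) := by
        rw [← univ_three l₁ l₂ l₃ h12 h13 h23]
        exact Finset.mem_univ _
      simpa using this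
    have hfin : ∀ a b : Fin 3, a ≠ b → a ≠ l₃ → b ≠ l₃ → x a < 0.38 → 0 < x a → 0.62 < x b →
        x b < 1 → ∃ Γ : Fin 3 → Torus (Opn 1 (-1) (al fun m => (ε m : K))) 1,
      (∀ l θ x, (Γ l).e θ (cst0 1 (-1) (al fun m => (ε m : K)) x) = cpx (s l) x) ∧
      (Matrix.of fun l m => rg (fun m => (ε m : K)) (Γ l) m).det ≠ 0 := by
      intro a b hab ha3 hb3 ha1 ha0 hb1 hb0
      have hcov' : ∀ l, l = a ∨ l = b ∨ l = l₃ := by
        intro l
        have : l ∈ ({a, b, l₃} : Finset (Fin 3)) := by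
          rw [← univ_three a b l₃ hab ha3 hb3]
          exact Finset.mem_univ _
        simpa using this
      obtain ⟨p, p1, p2, p3⟩ := exists_perm hab ha3 hb3 hi'j hi3.symm hij.symm
      refine det_of_B s _ hε hsum p fun l => ?_
      rcases hcov' l with rfl | rfl | rfl
      · rw [p1]
        exact ⟨j, i, hi'j, hi3.symm, hij.symm, x l, hxe l, ha0, ha1.le⟩
      · rw [p2]
        refine ⟨i', i, hi'j.symm, hij.symm, hi3.symm, 1 - x l, hxj l, by linarith, ?_⟩
        norm_num at hb1 ⊢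
        linarith
      · rw [p3]
        exact ⟨j, i', hij, hi3, hi'j.symm, (x l)⁻¹, hz', hzi.1, hzi.2⟩
    rcases hc with ⟨c1, c2⟩ | ⟨c1, c2⟩
    · exact hfin l₁ l₂ h12 h13 h23 c1 x1.1 c2 x2.2
    · exact hfin l₂ l₁ h12.symm h23 h13 c1 x2.1 c2 x1.2

end Pool.Agent.V8H65.K2
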