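import Mathlib
set_option autoImplicit false

/-!
The analytic solution `T(τ)` of `T = 1 + τ T ^ 3` on the disc `|τ| < 4/27`.
-/

namespace Pool.Agent.V8H65.K2

open Filter Topology

/-- the iterates of `T ↦ 1 + τ T ^ 3` -/
noncomputable def tn : ℕ → ℂ → ℂ
  | 0, _ => 1
  | n + 1, τ => 1 + τ * (tn n τ) ^ 3

/-- the iterates at `4/27` -/
noncomputable def rn : ℕ → ℝ
  | 0 => 1
  | n + 1 => 1 + 4 / 27 * (rn n) ^ 3

theorem rn_bounds (n : ℕ) : 1 ≤ rn n ∧ rn n ≤ 3 / 2 := by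
  induction n with
  | zero => constructor <;> norm_num [rn]
  | succ n ih =>
    obtain ⟨h1, h2⟩ := ih
    have h3 : (rn n) ^ 3 ≤ (3 / 2) ^ 3 := pow_le_pow_left₀ (by linarith) h2 3
    have h4 : 0 ≤ (rn n) ^ 3 := by positivity
    constructor
    · show 1 ≤ 1 + 4 / 27 * (rn n) ^ 3
      linarith
    · show 1 + 4 / 27 * (rn n) ^ 3 ≤ 3 / 2
      norm_num at h3
      linarith

theorem norm_tn_le {τ : ℂ} (h : ‖τ‖ ≤ 4 / 27) (n : ℕ) : ‖tn n τ‖ ≤ rn n := by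
  induction n with
  | zero => simp [tn, rn]
  | succ n ih =>
    show ‖1 + τ * (tn n τ) ^ 3‖ ≤ 1 + 4 / 27 * (rn n) ^ 3
    refine (norm_add_le _ _).trans ?_
    rw [norm_one, norm_mul, norm_pow]
    gcongr

theorem norm_diff_le {τ : ℂ} (h : ‖τ‖ ≤ 4 / 27) (n : ℕ) :
    ‖tn (n + 1) τ - tn n τ‖ ≤ rn (n + 1) - rn n := by
  induction n with
  | zero =>
    have e1 : tn (0 + 1) τ - tn 0 τ = τ := by simp [tn]
    have e2 : rn (0 + 1) - rn 0 = 4 / 27 := by norm_num [rn]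
    rw [e1, e2]
    exact h
  | succ n ih =>
    have e1 : tn (n + 1 + 1) τ - tn (n + 1) τ = τ * ((tn (n + 1) τ - tn n τ) *
        ((tn (n + 1) τ) ^ 2 + tn (n + 1) τ * tn n τ + (tn n τ) ^ 2)) := by
      have a1 : tn (n + 1 + 1) τ = 1 + τ * (tn (n + 1) τ) ^ 3 := rfl
      have a2 : tn (n + 1) τ = 1 + τ * (tn n τ) ^ 3 := rfl
      rw [a1]
      nth_rewrite 2 [a2]
      ring
    have e2 : rn (n + 1 + 1) - rn (n + 1) = 4 / 27 * ((rn (n + 1) - rn n) *
        ((rn (n + 1)) ^ 2 + rn (n + 1) * rn n + (rn n) ^ 2)) := by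
      have a1 : rn (n + 1 + 1) = 1 + 4 / 27 * (rn (n + 1)) ^ 3 := rfl
      have a2 : rn (n + 1) = 1 + 4 / 27 * (rn n) ^ 3 := rfl
      rw [a1]
      nth_rewrite 2 [a2]
      ring
    have b1 := norm_tn_le h n
    have b2 := norm_tn_le h (n + 1)
    have c1 := (rn_bounds n).1
    have c2 := (rn_bounds (n + 1)).1
    have h3 : ‖(tn (n + 1) τ) ^ 2 + tn (n + 1) τ * tn n τ + (tn n τ) ^ 2‖ ≤
        (rn (n + 1)) ^ 2 + rn (n + 1) * rn n + (rn n) ^ 2 := by
      refine (norm_add₃_le).trans ?_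
      rw [norm_pow, norm_mul, norm_pow]
      gcongr
    rw [e1, e2, norm_mul, norm_mul]
    have h0 : 0 ≤ rn (n + 1) - rn n := (norm_nonneg _).trans ih
    gcongr

theorem summable_rn : Summable fun n => rn (n + 1) - rn n := by
  refine summable_of_sum_range_le (c := 1 / 2) (fun n => ?_) fun n => ?_
  · exact (norm_nonneg _).trans (norm_diff_le (τ := 0) (by norm_num) n)
  · rw [Finset.sum_range_sub]
    have := (rn_bounds n).2
    have e : rn 0 = 1 := rfl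
    rw [e]
    linarith

/-- the solution of `T = 1 + τ T ^ 3` -/
noncomputable def TT (τ : ℂ) : ℂ := 1 + ∑' n, (tn (n + 1) τ - tn n τ)

theorem differentiable_tn (n : ℕ) : Differentiable ℂ (tn n) := by
  induction n with
  | zero => exact differentiable_const _
  | succ n ih => exact (differentiable_const _).add (differentiable_id.mul (ih.pow 3))

theorem analyticAt_TT {τ : ℂ} (h : ‖τ‖ < 4 / 27) : AnalyticAt ℂ TT τ := by
  have hU : IsOpen (Metric.ball (0 : ℂ) (4 / 27)) := Metric.isOpen_ball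
  have h1 : DifferentiableOn ℂ (fun τ => ∑' n, (tn (n + 1) τ - tn n τ))
      (Metric.ball (0 : ℂ) (4 / 27)) := by
    refine Complex.differentiableOn_tsum_of_summable_norm summable_rn (fun n => ?_) hU
      fun n w hw => ?_
    · exact ((differentiable_tn (n + 1)).sub (differentiable_tn n)).differentiableOn
    · exact norm_diff_le (by rw [mem_ball_zero_iff] at hw; exact hw.le) n
  have h2 : DifferentiableOn ℂ TT (Metric.ball (0 : ℂ) (4 / 27)) := h1.const_add 1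
  exact h2.analyticAt (hU.mem_nhds (by rwa [mem_ball_zero_iff]))

theorem tendsto_tn {τ : ℂ} (h : ‖τ‖ ≤ 4 / 27) : Tendsto (fun n => tn n τ) atTop (𝓝 (TT τ)) := by
  have h1 : Summable fun n => tn (n + 1) τ - tn n τ :=
    Summable.of_norm_bounded summable_rn fun n => norm_diff_le h n
  have h2 := h1.hasSum.tendsto_sum_nat.const_add 1
  refine h2.congr fun n => ?_
  rw [Finset.sum_range_sub (fun n => tn n τ)]
  show 1 + (tn n τ - 1) = tn n τ
  ring

theorem TT_eq {τ : ℂ} (h : ‖τ‖ ≤ 4 / 27) : TT τ = 1 + τ * (TT τ) ^ 3 := by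
  have h1 := tendsto_tn h
  have h2 : Tendsto (fun n => tn (n + 1) τ) atTop (𝓝 (TT τ)) := h1.comp (tendsto_add_atTop_nat 1)
  have h3 : Tendsto (fun n => 1 + τ * (tn n τ) ^ 3) atTop (𝓝 (1 + τ * (TT τ) ^ 3)) :=
    ((h1.pow 3).const_mul τ).const_add 1
  exact tendsto_nhds_unique h2 h3

theorem tn_real {r : ℝ} (h0 : 0 ≤ r) (h : r ≤ 4 / 27) (n : ℕ) :
    ∃ t : ℝ, 1 ≤ t ∧ t ≤ 3 / 2 ∧ tn n (r : ℂ) = t := by
  induction n with
  | zero => exact ⟨1, le_refl _, by norm_num, by simp [tn]⟩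
  | succ n ih =>
    obtain ⟨t, h1, h2, h3⟩ := ih
    refine ⟨1 + r * t ^ 3, ?_, ?_, ?_⟩
    · have : 0 ≤ r * t ^ 3 := by positivity
      linarith
    · have h4 : t ^ 3 ≤ (3 / 2) ^ 3 := pow_le_pow_left₀ (by linarith) h2 3
      have h5 : r * t ^ 3 ≤ 4 / 27 * (3 / 2) ^ 3 :=
        mul_le_mul h h4 (by positivity) (by norm_num)
      norm_num at h5
      linarith
    · show 1 + (r : ℂ) * (tn n (r : ℂ)) ^ 3 = _
      rw [h3]
      push_cast
      ring

theorem TT_real {r : ℝ} (h0 : 0 ≤ r) (h : r ≤ 4 / 27) :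
    ∃ t : ℝ, 1 ≤ t ∧ t ≤ 3 / 2 ∧ TT (r : ℂ) = t := by
  have hr : ‖(r : ℂ)‖ ≤ 4 / 27 := by
    rw [Complex.norm_real, Real.norm_eq_abs, abs_of_nonneg h0]
    exact h
  have h1 := tendsto_tn hr
  have hcl : IsClosed ((fun t : ℝ => (t : ℂ)) '' Set.Icc 1 (3 / 2)) :=
    (isCompact_Icc.image Complex.continuous_ofReal).isClosed
  have h2 : TT (r : ℂ) ∈ (fun t : ℝ => (t : ℂ)) '' Set.Icc 1 (3 / 2) := by
    refine hcl.mem_of_tendsto h1 (Eventually.of_forall fun n => ?_)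
    obtain ⟨t, h3, h4, h5⟩ := tn_real h0 h n
    exact ⟨t, ⟨h3, h4⟩, h5.symm⟩
  obtain ⟨t, ⟨h3, h4⟩, h5⟩ := h2
  exact ⟨t, h3, h4, h5.symm⟩

end Pool.Agent.V8H65.K2
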