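import Mathlib
set_option autoImplicit false

/-!
The curve `(1 - y²) (1 - ε_0 x) (1 - ε_1 x) (1 - ε_2 x) = 1`.
-/

namespace Pool.Agent.V8H65.K2

variable {K : Type*} [Field K]

/-- the points `1/ε_i` -/
def al (ε : Fin 3 → K) : Fin (2 + 1) → K := fun i => (ε i)⁻¹

/-- the cubic polynomial `P(x) = ∏ (1 - ε_i x)` in the second variable `x = X 1` -/
noncomputable def cub (ε : Fin 3 → K) : MvPolynomial (Fin (1 + 1)) K :=
  ∏ i, (1 - MvPolynomial.C (ε i) * MvPolynomial.X 1)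

/-- the equation `(1 - y²) P(x) - 1` of the curve, `y = X 0`, `x = X 1` -/
noncomputable def crv (ε : Fin 3 → K) : MvPolynomial (Fin (1 + 1)) K :=
  (1 - MvPolynomial.X 0 ^ 2) * cub ε - 1

/-- `ε 0 ε 1 + ε 1 ε 2 + ε 2 ε 0` -/
def s2 (ε : Fin 3 → K) : K := ε 0 * ε 1 + ε 1 * ε 2 + ε 2 * ε 0

/-- `ε 0 ε 1 ε 2` -/
def s3 (ε : Fin 3 → K) : K := ε 0 * ε 1 * ε 2

/-- the quartic polynomial `Q(x) = (s2 - s3 x) ∏ (1 - ε_i x)` -/
noncomputable def quartic (ε : Fin 3 → K) : Polynomial K :=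
  (Polynomial.C (s2 ε) - Polynomial.C (s3 ε) * Polynomial.X) *
    ∏ i, (1 - Polynomial.C (ε i) * Polynomial.X)

end Pool.Agent.V8H65.K2
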