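import Pool.Agent.TH690.UR.Pair
set_option autoImplicit false

/-!
Regulator integrals `pr f g` on the circles `|f| = R`, `R → 1`.
-/

namespace Pool.Agent.V8H65.K2

open MeasureTheory Set Filter Topology

open Pool.Agent.TH826.UH (pr NZ nz_circ nz_circ_sub ld_circ pr_const pr_circ pr_div pr_mul pr_neg)

open Pool.Agent.TH690.UR (wn nz_const)

open Pool.Agent.TH826.MK (circ norm_circ contDiff_circ circ_add_one hasDerivAt_circ)

open scoped Real

theorem pr_circ_eq {R : ℝ} (hR : 0 < R) {H : ℝ → ℂ} (hH : NZ H) :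
    pr (circ R) H = Real.log R * wn H - 2 * π * ∫ s in (0 : ℝ)..1, Real.log ‖H s‖ := by
  unfold pr wn
  simp only [ld_circ hR, norm_circ hR.le]
  have i1 : IntervalIntegrable (fun s => Real.log R * (deriv H s / H s).im) volume 0 1 :=
    (continuous_const.mul hH.cont_im).intervalIntegrable _ _
  have i2 : IntervalIntegrable (fun s => Real.log ‖H s‖ * (2 * π)) volume 0 1 :=
    (hH.cont_log.mul continuous_const).intervalIntegrable _ _
  rw [intervalIntegral.integral_sub i1 i2, intervalIntegral.integral_const_mul,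
    intervalIntegral.integral_mul_const]
  ring

theorem wn_zero {H : ℝ → ℂ} (hH : NZ H) (hper : H 1 = H 0) {κ : ℂ}
    (h : ∀ s, 0 < (κ * H s).re) : wn H = 0 := by
  have hκ : κ ≠ 0 := by
    rintro rfl
    have := h 0
    simp at this
  have hws : ∀ s, κ * H s ∈ Complex.slitPlane := fun s =>
    Complex.mem_slitPlane_iff.2 (Or.inl (h s))
  have hHd : ∀ s, HasDerivAt H (deriv H s) s := fun s =>
    (hH.smooth.differentiable (by norm_num) s).hasDerivAt
  have hlog : ∀ s, HasDerivAt (fun s => Complex.log (κ * H s)) (deriv H s / H s) s := by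
    intro s
    have h1 : HasDerivAt (fun s => κ * H s) (κ * deriv H s) s := (hHd s).const_mul κ
    have h2 := h1.clog_real (hws s)
    refine h2.congr_deriv ?_
    have := hH.ne_zero s
    field_simp
  have hwind : ∫ s in (0 : ℝ)..1, (deriv H s / H s) = 0 := by
    rw [intervalIntegral.integral_eq_sub_of_hasDerivAt (fun s _ => hlog s)
      (hH.cont_ld.intervalIntegrable _ _), hper, sub_self]
  have h1 := Complex.imCLM.intervalIntegral_comp_comm
    (hH.cont_ld.intervalIntegrable (μ := volume) 0 1)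
  rw [hwind, map_zero] at h1
  exact h1

theorem circ_eq_mul (R s : ℝ) : circ R s = R * circ 1 s := by
  unfold circ
  push_cast
  ring

theorem tendsto_mul_one (z : ℂ) :
    Tendsto (fun q : ℝ × ℂ => (q.1 : ℂ) * q.2) (𝓝 ((1 : ℝ), z)) (𝓝 z) := by
  have h1 : Continuous fun q : ℝ × ℂ => (q.1 : ℂ) * q.2 :=
    (Complex.continuous_ofReal.comp continuous_fst).mul continuous_snd
  have h2 := h1.tendsto ((1 : ℝ), z)
  simpa using h2

theorem ev_circ {p : ℂ → Prop} (h : ∀ z, ‖z‖ = 1 → ∀ᶠ w in 𝓝 z, p w) :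
    ∀ᶠ R in 𝓝 (1 : ℝ), ∀ s, p (circ R s) := by
  have hK : IsCompact (Metric.sphere (0 : ℂ) 1) := isCompact_sphere _ _
  have h1 := hK.eventually_forall_of_forall_eventually (x₀ := (1 : ℝ))
    (P := fun R z => p (R * z)) (fun z hz =>
      (tendsto_mul_one z).eventually (h z (by simpa using hz)))
  filter_upwards [h1] with R hR s
  have := hR (circ 1 s) (by simp [norm_circ])
  rwa [← circ_eq_mul] at this

theorem tendsto_avg {G : ℂ → ℂ} (hG : ∀ z, ‖z‖ = 1 → ∀ᶠ w in 𝓝 z, ContinuousAt G w ∧ G w ≠ 0) :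
    Tendsto (fun R => ∫ s in (0 : ℝ)..1, Real.log ‖G (circ R s)‖) (𝓝 1)
      (𝓝 (∫ s in (0 : ℝ)..1, Real.log ‖G (circ 1 s)‖)) := by
  set L : ℂ → ℝ := fun z => Real.log ‖G z‖ with hL
  have hLc : ∀ z, ‖z‖ = 1 → ∀ᶠ w in 𝓝 z, ContinuousAt L w := by
    intro z hz
    filter_upwards [hG z hz] with w hw
    exact hw.1.norm.log (norm_ne_zero_iff.2 hw.2)
  have hcont : ∀ R, (∀ s, ContinuousAt L (circ R s)) → Continuous fun s => L (circ R s) := by
    intro R h
    rw [continuous_iff_continuousAt]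
    intro s
    exact (h s).comp (f := circ R) (contDiff_circ (n := 1) R).continuous.continuousAt
  have h1c : Continuous fun s => L (circ 1 s) := by
    refine hcont 1 fun s => ?_
    exact (hLc _ (by simp [norm_circ])).self_of_nhds
  rw [Metric.tendsto_nhds]
  intro ε hε
  have hK : IsCompact (Metric.sphere (0 : ℂ) 1) := isCompact_sphere _ _
  have h2 := hK.eventually_forall_of_forall_eventually (x₀ := (1 : ℝ))
    (P := fun R z => |L (R * z) - L z| < ε / 2) (fun z hz => by
      have hz' : ‖z‖ = 1 := by simpa using hz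
      have c1 : ContinuousAt L z := (hLc z hz').self_of_nhds
      have t1 : Tendsto (fun q : ℝ × ℂ => L (q.1 * q.2)) (𝓝 ((1 : ℝ), z)) (𝓝 (L z)) :=
        c1.tendsto.comp (tendsto_mul_one z)
      have t2 : Tendsto (fun q : ℝ × ℂ => L q.2) (𝓝 ((1 : ℝ), z)) (𝓝 (L z)) :=
        c1.tendsto.comp continuous_snd.continuousAt.tendsto
      have t3 := (t1.sub t2).abs
      rw [sub_self, abs_zero] at t3
      exact t3.eventually_lt_const (by linarith))
  filter_upwards [h2, ev_circ hLc] with R hR hRc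
  have i1 : IntervalIntegrable (fun s => L (circ R s)) volume 0 1 :=
    (hcont R hRc).intervalIntegrable _ _
  have i2 : IntervalIntegrable (fun s => L (circ 1 s)) volume 0 1 := h1c.intervalIntegrable _ _
  rw [Real.dist_eq, ← intervalIntegral.integral_sub i1 i2]
  have hb := intervalIntegral.norm_integral_le_of_norm_le_const (a := (0 : ℝ)) (b := 1)
    (f := fun s => L (circ R s) - L (circ 1 s)) (C := ε / 2) (fun s _ => by
      rw [Real.norm_eq_abs]
      have := hR (circ 1 s) (by simp [norm_circ])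
      rw [← circ_eq_mul] at this
      exact this.le)
  rw [Real.norm_eq_abs, sub_zero, abs_one, mul_one] at hb
  linarith

/-- functions analytic on the unit circle whose values there are in an open half plane -/
def Half (κ : ℂ) (G : ℂ → ℂ) : Prop := ∀ z, ‖z‖ = 1 → AnalyticAt ℂ G z ∧ 0 < (κ * G z).re

variable {κ : ℂ} {G : ℂ → ℂ}

theorem Half.ev (h : Half κ G) (z : ℂ) (hz : ‖z‖ = 1) :
    ∀ᶠ w in 𝓝 z, AnalyticAt ℂ G w ∧ 0 < (κ * G w).re := by
  obtain ⟨h1, h2⟩ := h z hz
  have c : ContinuousAt (fun w => (κ * G w).re) z :=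
    Complex.continuous_re.continuousAt.comp (continuousAt_const.mul h1.continuousAt)
  filter_upwards [h1.eventually_analyticAt, continuousAt_const.eventually_lt c h2] with w a b
  exact ⟨a, b⟩

theorem ne_of_re {w : ℂ} (h : 0 < (κ * w).re) : w ≠ 0 := by
  rintro rfl
  simp at h

theorem nz_of_analytic {R : ℝ} (h : ∀ s, AnalyticAt ℂ G (circ R s) ∧ G (circ R s) ≠ 0) :
    NZ fun s => G (circ R s) := by
  refine ⟨?_, fun s => (h s).2⟩
  rw [contDiff_iff_contDiffAt]
  intro s
  exact (((h s).1.contDiffAt (n := 2)).restrict_scalars ℝ).comp s (contDiff_circ R).contDiffAt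

theorem Half.nz (h : Half κ G) : ∀ᶠ R in 𝓝 (1 : ℝ), NZ (fun s => G (circ R s)) ∧
    wn (fun s => G (circ R s)) = 0 := by
  filter_upwards [ev_circ (h.ev)] with R hR
  have h1 : NZ fun s => G (circ R s) := nz_of_analytic fun s => ⟨(hR s).1, ne_of_re (hR s).2⟩
  refine ⟨h1, wn_zero h1 ?_ fun s => (hR s).2⟩
  have := circ_add_one R 0
  rw [zero_add] at this
  rw [this]

/-- the average of `log |G|` over the unit circle -/
noncomputable def av (G : ℂ → ℂ) : ℝ := ∫ s in (0 : ℝ)..1, Real.log ‖G (circ 1 s)‖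

theorem Half.tendsto (h : Half κ G) :
    Tendsto (fun R => pr (circ R) fun s => G (circ R s)) (𝓝 1) (𝓝 (-(2 * π * av G))) := by
  have h1 := tendsto_avg (G := G) (fun z hz => by
    filter_upwards [h.ev z hz] with w hw
    exact ⟨hw.1.continuousAt, ne_of_re hw.2⟩)
  have h2 := (h1.const_mul (2 * π)).neg
  refine h2.congr' ?_
  filter_upwards [h.nz, eventually_gt_nhds (zero_lt_one : (0 : ℝ) < 1)] with R hR hR0
  rw [pr_circ_eq hR0 hR.1, hR.2]
  ring

/-- The pairing of `f` and `(2 - f - 1/f)/4`. -/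
theorem pr_w {R : ℝ} (hR : 1 < R) :
    NZ (fun s => 1 - (circ R s + (circ R s)⁻¹ + 2) / 4) ∧
    pr (circ R) (fun s => 1 - (circ R s + (circ R s)⁻¹ + 2) / 4) = 2 * π * Real.log 4 := by
  have hR0 : 0 < R := by linarith
  have h1 := pr_circ hR (ζ := 1) (by simp)
  have n0 := nz_circ hR0
  have n1 : NZ fun s => circ R s - 1 := nz_circ_sub hR0 (by simp; exact hR.ne)
  have e1 : (fun s => circ R s + (circ R s)⁻¹ - (1 + 1⁻¹)) =
      fun s => (circ R s - 1) * (circ R s - 1) / circ R s := by
    funext s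
    have := n0.ne_zero s
    field_simp
    ring
  have n2 : NZ fun s => circ R s + (circ R s)⁻¹ - (1 + 1⁻¹) := by
    rw [e1]
    exact (n1.mul n1).div n0
  have e2 : (fun s => 1 - (circ R s + (circ R s)⁻¹ + 2) / 4) = fun s =>
      (-(1 / 4) : ℂ) * (circ R s + (circ R s)⁻¹ - (1 + 1⁻¹)) := by
    funext s
    ring
  have nc : NZ fun _ => (-(1 / 4) : ℂ) := nz_const (by norm_num)
  rw [e2]
  refine ⟨nc.mul n2, ?_⟩
  rw [pr_mul n0 nc n2, h1, add_zero, pr_const hR0]
  rw [norm_neg, norm_div, norm_one, Complex.norm_ofNat, Real.log_div one_ne_zero (by norm_num),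
    Real.log_one]
  ring

/-- The average of `log |1 - f|` over the unit circle. -/
theorem av_log : IntervalIntegrable (fun s => Real.log ‖circ 1 s - 1‖) volume 0 1 ∧
    ∫ s in (0 : ℝ)..1, Real.log ‖circ 1 s - 1‖ = 0 := by
  have h1 := circleAverage_log_norm_sub_const₁ (a := (1 : ℂ)) (by simp)
  have h2 := circleIntegrable_log_norm_sub_const (c := (0 : ℂ)) (a := (1 : ℂ)) 1
  have e : ∀ s : ℝ, circ 1 s = circleMap 0 1 (2 * π * s) := fun s =>
    Pool.Agent.TH826.MK.circ_eq 1 s
  constructor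
  · have h3 : IntervalIntegrable (fun θ => Real.log ‖circleMap 0 1 θ - 1‖) volume 0 (2 * π) := h2
    have h4 := h3.comp_mul_left (c := 2 * π)
    have e1 : (0 : ℝ) / (2 * π) = 0 := zero_div _
    have e2 : (2 * π) / (2 * π) = 1 := div_self (by positivity)
    rw [e1, e2] at h4
    simp only [e]
    exact h4
  · unfold Real.circleAverage at h1
    have h3 := intervalIntegral.integral_comp_mul_left (a := 0) (b := 1)
      (fun θ => Real.log ‖circleMap 0 1 θ - 1‖) (c := 2 * π) (by positivity)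
    rw [mul_zero, mul_one] at h3
    simp only [e]
    rw [h3]
    exact h1

end Pool.Agent.V8H65.K2
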