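import Pool.Agent.V8H65.K2.Row
import Pool.Agent.TH265.V.Main
import Pool.Agent.V8H65.K2.Defs
set_option autoImplicit false

/-!
The loops and the regulators of the three symbols on them.
-/

namespace Pool.Agent.V8H65.K2

open MeasureTheory Set Filter Topology

open Pool.Agent.TH826.UH (pr NZ nz_circ nz_circ_sub ld_circ pr_const pr_circ pr_div pr_mul pr_neg
  pairing_eq_pr)

open Pool.Agent.TH690.UR (wn nz_const)

open Pool.Agent.TH826.MK (circ norm_circ contDiff_circ circ_add_one hasDerivAt_circ Torus symb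
  tpt_add_single pairing)

open Pool.Agent.TH826.MH (mkT evX evX_fpol mkT_ux ux fpol)

open Pool.Agent.TH265.U (extTorus extTorus_toLoc toLoc fn_div)

open Pool.Agent.TH265.V

open scoped Real

theorem one_sub_cc {f : ℂ} (hf : f ≠ 0) : 1 - cc f = -(f - 1) ^ 2 / (4 * f) := by
  unfold cc
  field_simp
  ring

theorem one_sub_cc_ne {f : ℂ} (hf : f ≠ 0) (h1 : f ≠ 1) : 1 - cc f ≠ 0 := by
  rw [one_sub_cc hf]
  exact div_ne_zero (neg_ne_zero.2 (pow_ne_zero 2 (sub_ne_zero.2 h1)))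
    (mul_ne_zero (by norm_num) hf)

section radius

variable {s : ℝ}

/-- a radius `R > 1` with the required inequalities -/
theorem exists_R (h0 : 0 < s) (h1 : s < 1 / 2) : ∃ R : ℝ, 1 < R ∧ (∀ t, circ R t ∈ UU s) ∧
    pr (circ R) (fun t => gg s (-1) (circ R t)) < 0 ∧
    0 < pr (circ R) (fun t => gg s (-1) (circ R t)) +
      pr (circ R) (fun t => gg s (1 - s) (circ R t)) ∧
    0 < pr (circ R) (fun t => gg s (-1) (circ R t)) +
      pr (circ R) (fun t => gg s s (circ R t)) ∧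
    (0 ≤ s ^ 2 - 3 * s + 1 → 0 < pr (circ R) (fun t => gg s (-1) (circ R t)) -
      pr (circ R) (fun t => gg s (1 - s) (circ R t)) +
      pr (circ R) (fun t => gg s s (circ R t))) := by
  have hpi := Real.pi_pos
  have tl := (half_l h0 h1).tendsto
  have tm := (half_m h0 h1).tendsto
  have tH := (half_H h0 h1).tendsto
  have a1 := av_l_pos h0 h1
  have a2 := av_m_add h0 h1
  have a3 := av_s_sub h0 h1
  have e1 := tl.eventually_lt_const (u := 0) (by
    rw [neg_lt_zero]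
    positivity)
  have e2 := (tl.add tm).eventually_const_lt (u := 0) (by
    have : 2 * π * (av (gg s (1 - s)) + av (gg s (-1))) < 0 :=
      mul_neg_of_pos_of_neg (by positivity) a2
    linarith)
  have e3 := (tl.add (tH.const_sub (2 * π * Real.log 4))).eventually_const_lt (u := 0) (by
    have : 0 < 2 * π * (Real.log 4 + av (HH s) - av (gg s (-1))) :=
      mul_pos (by positivity) (by linarith)
    linarith)
  have e4 : ∀ᶠ R in 𝓝 (1 : ℝ), 0 ≤ s ^ 2 - 3 * s + 1 →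
      0 < pr (circ R) (fun t => gg s (-1) (circ R t)) -
      pr (circ R) (fun t => gg s (1 - s) (circ R t)) +
      (2 * π * Real.log 4 - pr (circ R) (fun t => HH s (circ R t))) := by
    by_cases h : 0 ≤ s ^ 2 - 3 * s + 1
    · have a4 := av_s_sub' h0 h1 h
      have e4 := ((tl.sub tm).add (tH.const_sub (2 * π * Real.log 4))).eventually_const_lt
        (u := 0) (by
        have : 0 < 2 * π * (Real.log 4 + av (HH s) - (av (gg s (-1)) - av (gg s (1 - s)))) :=
          mul_pos (by positivity) (by linarith)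
        linarith)
      filter_upwards [e4] with R hR _ using hR
    · exact Eventually.of_forall fun R h' => absurd h' h
  have hU : ∀ᶠ R in 𝓝 (1 : ℝ), ∀ t, circ R t ∈ UU s :=
    ev_circ fun z hz => UU_nhds (circle_mem h0 h1 hz)
  have hall := (e1.and (e2.and (e3.and (e4.and (hU.and (half_H h0 h1).nz)))))
  have hall' := hall.filter_mono (nhdsWithin_le_nhds (s := Ioi (1 : ℝ)))
  obtain ⟨R, ⟨b1, b2, b3, b4, b5, b6, -⟩, hR⟩ := (hall'.and self_mem_nhdsWithin).exists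
  have hR1 : 1 < R := hR
  obtain ⟨n1, p1⟩ := pr_w hR1
  have hR0 : 0 < R := by linarith
  have e : (fun t => gg s s (circ R t)) = fun t =>
      -((1 - (circ R t + (circ R t)⁻¹ + 2) / 4) / HH s (circ R t)) := by
    funext t
    have h2 := XX_eq' (b5 t)
    have h3 := XX_ne_zero h0 h1 (b5 t)
    have h4 := b6.ne_zero t
    have hs : (s : ℂ) ≠ 0 := by exact_mod_cast h0.ne'
    show gg s s (circ R t) = -((1 - cc (circ R t)) / HH s (circ R t))
    rw [← neg_div, eq_div_iff h4]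
    unfold gg HH
    field_simp
    linear_combination h2
  have hs : pr (circ R) (fun t => gg s s (circ R t)) =
      2 * π * Real.log 4 - pr (circ R) (fun t => HH s (circ R t)) := by
    rw [e, pr_neg, pr_div (nz_circ hR0) n1 b6, p1]
  rw [← hs] at b3 b4
  exact ⟨R, hR1, b5, b1, b2, b3, b4⟩

end radius

section torus

variable {K : Type*} [Field K]

theorem exists_torus (σ : K →+* ℂ) (ε : Fin 3 → K) {s R l : ℝ} (h0 : 0 < s)
    (h1 : s < 1 / 2) (hR : 1 < R) (hU : ∀ t, circ R t ∈ UU s) (hl : l ≠ 0) (e' : Fin 3 → ℝ)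
    (he0 : ∀ i, e' i ≠ 0) (he : ∀ i, σ (ε i) = ((-(l * e' i) : ℝ) : ℂ))
    (hP : ∀ z : ℂ, ∏ i, (z - e' i) = (z - s) * (z - (1 - s)) * (z + 1)) :
    ∃ Γ : Torus (Opn 1 (-1) (al ε)) 1,
      (∀ θ x, Γ.e θ (cst0 1 (-1) (al ε) x) = σ x) ∧
      ∀ i, Γ.reg (symb (sym 1 (-1) (al ε) (i, 0))) =
        pr (circ R) (fun t => gg s (e' i) (circ R t)) := by
  have hR0 : 0 < R := by linarith
  have hf0 : ∀ t, circ R t ≠ 0 := (nz_circ hR0).ne_zero
  have hf1 : ∀ t, circ R t ≠ 1 := by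
    intro t h
    have h2 := congrArg norm h
    rw [norm_circ hR0.le, norm_one] at h2
    linarith
  have hlC : (l : ℂ) ≠ 0 := by exact_mod_cast hl
  have heC : ∀ i, (e' i : ℂ) ≠ 0 := fun i => by exact_mod_cast he0 i
  set XC : ℝ → ℂ := fun t => XX s (circ R t) with hXC
  have hXC0 : ∀ t, XC t ≠ 0 := fun t => XX_ne_zero h0 h1 (hU t)
  have nX : NZ XC := nz_of_analytic fun t => ⟨analyticAt_XX (hU t), hXC0 t⟩
  have hw : ∀ t, (1 - cc (circ R t)) * XC t ^ 3 = ∏ i, (XC t - e' i) := by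
    intro t
    rw [hP]
    exact XX_eq' (hU t)
  have hw0 : ∀ t, 1 - cc (circ R t) ≠ 0 := fun t => one_sub_cc_ne (hf0 t) (hf1 t)
  have hne : ∀ t i, XC t - e' i ≠ 0 := by
    intro t i h
    have h2 := hw t
    rw [Finset.prod_eq_zero (Finset.mem_univ i) h] at h2
    exact mul_ne_zero (hw0 t) (pow_ne_zero 3 (hXC0 t)) h2
  -- the coordinates
  set xx : ℝ → ℂ := fun t => (-1) / (l * XC t) with hxx
  set yy : ℝ → ℂ := fun t => (1 + circ R t) / (1 - circ R t) with hyy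
  have nx : NZ xx := (nz_const (by norm_num)).div ((nz_const hlC).mul nX)
  have n1f : NZ fun t => 1 - circ R t :=
    ⟨contDiff_const.sub (contDiff_circ R), fun t => sub_ne_zero.2 (hf1 t).symm⟩
  have cy : ContDiff ℝ 2 yy := by
    have e : yy = fun t => (1 + circ R t) * (1 - circ R t)⁻¹ := by
      funext t
      rw [hyy]
      simp only
      rw [div_eq_mul_inv]
    rw [e]
    exact (contDiff_const.add (contDiff_circ R)).mul (n1f.smooth.inv n1f.ne_zero)
  have hα : ∀ i, σ (al ε i) = (-1) / (l * e' i) := by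
    intro i
    unfold al
    rw [map_inv₀, he]
    push_cast
    rw [inv_eq_one_div, ← neg_div_neg_eq, neg_neg]
  set X : (Fin 1 → ℝ) → (Fin (1 + 1) → ℂ) := fun θ =>
    Fin.cons (yy (θ 0)) (fun _ => xx (θ 0)) with hX
  have hX0 : ∀ θ, X θ 0 = yy (θ 0) := fun θ => rfl
  have hX1 : ∀ θ, X θ 1 = xx (θ 0) := fun θ => rfl
  have hXs : ∀ θ (k : Fin 1), X θ k.succ = xx (θ 0) := fun θ k => rfl
  have hXc : ContDiff ℝ 2 X := by
    refine contDiff_pi.2 fun k => ?_
    refine Fin.cases ?_ (fun k => ?_) k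
    · simp only [hX0]
      exact cy.comp (contDiff_apply ℝ ℝ 0)
    · simp only [hXs]
      exact nx.smooth.comp (contDiff_apply ℝ ℝ 0)
  have hcp : ∀ (θ : Fin 1 → ℝ) (i : Fin 1),
      circ R ((θ + Pi.single i 1 : Fin 1 → ℝ) 0) = circ R (θ 0) := by
    intro θ i
    exact congrFun (tpt_add_single (fun _ => R) θ i) 0
  have hXp : ∀ θ i, X (θ + Pi.single i 1) = X θ := by
    intro θ i
    funext k
    refine Fin.cases ?_ (fun k => ?_) k
    · rw [hX0, hX0]
      simp only [hyy, hcp]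
    · rw [hXs, hXs]
      simp only [hxx, hXC, hcp]
  have hy1 : ∀ t, (yy t - 1) * (yy t + 1) * (1 - cc (circ R t)) = -1 := by
    intro t
    have h2 := hf0 t
    have h3 := n1f.ne_zero t
    rw [one_sub_cc h2]
    simp only [hyy]
    field_simp
    ring
  have hXx : ∀ θ, σ (lm (al ε)) * ∏ k, ∏ i, (X θ k - σ (rts 1 (-1) (al ε) k i)) = 1 := by
    intro θ
    have h2 : ∏ i, (X θ 0 - σ (rts 1 (-1) (al ε) 0 i)) = (yy (θ 0) - 1) * (yy (θ 0) + 1) := by
      have e1 : ∀ i : Fin (1 + 1), (X θ 0 - σ (rts 1 (-1) (al ε) 0 i)) =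
          yy (θ 0) - (-1) ^ (i : ℕ) := by
        intro i
        show yy (θ 0) - σ ((-1) ^ (i : ℕ)) = _
        rw [map_pow, map_neg, map_one]
      rw [show (∏ i, (X θ 0 - σ (rts 1 (-1) (al ε) 0 i))) =
        ∏ i : Fin (1 + 1), (yy (θ 0) - (-1) ^ (i : ℕ)) from Finset.prod_congr rfl fun i _ => e1 i,
        Fin.prod_univ_two]
      simp
    have h3 : ∏ i, (X θ 1 - σ (rts 1 (-1) (al ε) 1 i)) =
        ∏ i : Fin 3, (-1) / (l * e' i) * ((XC (θ 0) - e' i) / XC (θ 0)) * (-1) := by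
      show ∏ i : Fin (2 + 1), (xx (θ 0) - σ (al ε i)) = _
      refine Finset.prod_congr rfl fun i _ => ?_
      rw [hα]
      have := hXC0 (θ 0)
      have := heC i
      simp only [hxx]
      field_simp
      ring
    have h4 : σ (lm (al ε)) = (∏ i : Fin 3, (-1) / (l * e' i) : ℂ)⁻¹ := by
      rw [map_lm]
      unfold lm
      rw [show (∏ i : Fin (2 + 1), -σ (al ε i)) = -∏ i : Fin 3, ((-1) / (l * e' i) : ℂ) by
        simp only [hα]
        rw [Fin.prod_univ_three, Fin.prod_univ_three]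
        ring, inv_neg, neg_neg]
    have h5 : (∏ i : Fin 3, (-1) / (l * e' i) : ℂ) ≠ 0 :=
      Finset.prod_ne_zero_iff.2 fun i _ => div_ne_zero (by norm_num) (mul_ne_zero hlC (heC i))
    rw [Fin.prod_univ_two, h2, h3, h4]
    simp only [Finset.prod_mul_distrib, Finset.prod_div_distrib (f := fun i => XC (θ 0) - e' i),
      Finset.prod_const, Finset.card_univ, Fintype.card_fin]
    rw [← hw]
    have h6 := hXC0 (θ 0)
    have h7 := hy1 (θ 0)
    rw [mul_div_assoc, div_self (pow_ne_zero 3 h6), mul_one]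
    set P : ℂ := ∏ i : Fin 3, (-1) / (l * e' i) with hPP
    have h8 : P⁻¹ * ((yy (θ 0) - 1) * (yy (θ 0) + 1) * (P * (1 - cc (circ R (θ 0))) * (-1) ^ 3)) =
        -(P⁻¹ * P) * ((yy (θ 0) - 1) * (yy (θ 0) + 1) * (1 - cc (circ R (θ 0)))) := by ring
    rw [h8, h7, inv_mul_cancel₀ h5]
    ring
  set Γ0 : Torus (Crv 1 (-1) (al ε)) 1 := mkT X hXc hXp hXx with hΓ0
  have hΓX : ∀ θ, Γ0.e θ (fX 1 (-1) (al ε)) = xx (θ 0) := by
    intro θ
    show evX (hXx θ) (fpol _ _ (MvPolynomial.X 1)) = _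
    rw [evX_fpol]
    simp only [MvPolynomial.coe_eval₂Hom, MvPolynomial.eval₂_X]
    rfl
  have hΓX0 : ∀ θ, Γ0.e θ (fX 1 (-1) (al ε)) ≠ 0 := by
    intro θ
    rw [hΓX]
    exact nx.ne_zero _
  refine ⟨extTorus (fX 1 (-1) (al ε)) Γ0 hΓX0, fun θ x => ?_, fun q => ?_⟩
  · show (extTorus (fX 1 (-1) (al ε)) Γ0 hΓX0).e θ (toLoc (fX 1 (-1) (al ε))
      (fpol _ _ (MvPolynomial.C x))) = σ x
    rw [extTorus_toLoc]
    show evX (hXx θ) (fpol _ _ (MvPolynomial.C x)) = σ x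
    rw [evX_fpol]
    simp
  rw [Torus.reg_symb]
  unfold Torus.pair
  set Γ := extTorus (fX 1 (-1) (al ε)) Γ0 hΓX0 with hΓ
  have hfY : ∀ j, Γ.fn (uY 1 (-1) (al ε) j : Opn 1 (-1) (al ε)) = fun θ =>
      yy (θ 0) - (-1) ^ (j : ℕ) := by
    intro j
    funext θ
    have h1 : Γ.fn (uY 1 (-1) (al ε) j : Opn 1 (-1) (al ε)) θ =
        Γ0.fn (ux (lm (al ε)) (rts 1 (-1) (al ε)) 0 j : Crv 1 (-1) (al ε)) θ :=
      extTorus_toLoc (fX 1 (-1) (al ε)) Γ0 hΓX0 _ θ
    rw [h1, hΓ0, mkT_ux X hXc hXp hXx 0 j]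
    show X θ 0 - σ ((-1) ^ (j : ℕ)) = _
    rw [map_pow, map_neg, map_one, hX0]
  have hfE : ∀ j, Γ.fn (uE 1 (-1) (al ε) j : Opn 1 (-1) (al ε)) = fun θ =>
      xx (θ 0) - σ (al ε j) := by
    intro j
    funext θ
    have h1 : Γ.fn (uE 1 (-1) (al ε) j : Opn 1 (-1) (al ε)) θ =
        Γ0.fn (ux (lm (al ε)) (rts 1 (-1) (al ε)) 1 j : Crv 1 (-1) (al ε)) θ :=
      extTorus_toLoc (fX 1 (-1) (al ε)) Γ0 hΓX0 _ θ
    rw [h1, hΓ0, mkT_ux X hXc hXp hXx 1 j]
    rfl
  have hfX : Γ.fn (uX 1 (-1) (al ε) : Opn 1 (-1) (al ε)) = fun θ => xx (θ 0) := by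
    funext θ
    have h1 : Γ.fn (uX 1 (-1) (al ε) : Opn 1 (-1) (al ε)) θ = Γ0.e θ (fX 1 (-1) (al ε)) :=
      extTorus_toLoc (fX 1 (-1) (al ε)) Γ0 hΓX0 _ θ
    rw [h1, hΓX]
  have ng : NZ fun t => gg s (e' q) (circ R t) := by
    refine nz_of_analytic (G := gg s (e' q)) fun t => ⟨analyticAt_gg (hU t) _, ?_⟩
    have h2 := hne t q
    have h3 := heC q
    unfold gg
    intro h4
    apply h2
    rw [sub_eq_zero, eq_div_iff h3, one_mul] at h4
    rw [sub_eq_zero]
    exact h4.symm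
  rw [← pairing_eq_pr (nz_circ hR0) ng]
  congr 1
  funext k
  refine Fin.cases ?_ (fun k => ?_) k
  · funext θ
    have h1 : sym 1 (-1) (al ε) (q, 0) 0 =
        uY 1 (-1) (al ε) (0 : Fin 1).castSucc / uY 1 (-1) (al ε) (0 : Fin 1).succ := rfl
    rw [h1, fn_div, hfY, hfY]
    show (yy (θ 0) - (-1) ^ ((0 : Fin 1).castSucc : ℕ)) /
      (yy (θ 0) - (-1) ^ ((0 : Fin 1).succ : ℕ)) = circ R (θ 0)
    have h2 : (((0 : Fin 1).castSucc : Fin 2) : ℕ) = 0 := rfl
    have h3 : (((0 : Fin 1).succ : Fin 2) : ℕ) = 1 := rfl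
    rw [h2, h3, pow_zero, pow_one, sub_neg_eq_add]
    have h4 := n1f.ne_zero (θ 0)
    have h5 : yy (θ 0) + 1 = 2 / (1 - circ R (θ 0)) := by
      simp only [hyy]
      field_simp
      ring
    have h6 : yy (θ 0) - 1 = 2 * circ R (θ 0) / (1 - circ R (θ 0)) := by
      simp only [hyy]
      field_simp
      ring
    rw [h5, h6]
    field_simp
  · funext θ
    have hk : k = 0 := Subsingleton.elim _ _
    subst hk
    have h1 : sym 1 (-1) (al ε) (q, 0) (Fin.succ 0) = uE 1 (-1) (al ε) q / uX 1 (-1) (al ε) :=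
      rfl
    rw [h1, fn_div, hfE, hfX]
    show (xx (θ 0) - σ (al ε q)) / xx (θ 0) = gg s (e' q) (circ R (θ 0))
    rw [hα]
    have := hXC0 (θ 0)
    have := heC q
    unfold gg
    simp only [hxx, hXC] at *
    field_simp
    ring

end torus

end Pool.Agent.V8H65.K2
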