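import Pool.Agent.V8H65.K2.Loop
set_option autoImplicit false

/-!
The regulators of the three symbols at a real place, and two determinants.
-/

namespace Pool.Agent.V8H65.K2

open Pool.Agent.TH826.MK (Torus symb)

open Pool.Agent.TH265.V

variable {K : Type*} [Field K]

/-- The extension of an embedding into `ℝ` to an embedding into `ℂ`. -/
noncomputable def cpx (σ : K →+* ℝ) : K →+* ℂ := Complex.ofRealHom.comp σ

theorem univ_three : ∀ j k i : Fin 3, j ≠ k → j ≠ i → k ≠ i →
    (Finset.univ : Finset (Fin 3)) = {j, k, i} := by decide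

theorem sum_three {M : Type*} [AddCommMonoid M] (f : Fin 3 → M) {j k i : Fin 3} (hjk : j ≠ k)
    (hji : j ≠ i) (hki : k ≠ i) : ∑ m, f m = f j + f k + f i := by
  rw [univ_three j k i hjk hji hki, Finset.sum_insert (by simp [hjk, hji]), Finset.sum_pair hki,
    add_assoc]

theorem prod_three {M : Type*} [CommMonoid M] (f : Fin 3 → M) {j k i : Fin 3} (hjk : j ≠ k)
    (hji : j ≠ i) (hki : k ≠ i) : ∏ m, f m = f j * f k * f i := by
  rw [univ_three j k i hjk hji hki, Finset.prod_insert (by simp [hjk, hji]),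
    Finset.prod_pair hki, mul_assoc]

/-- the regulator of the symbol number `m` on the loop `Γ` -/
noncomputable def rg (ε : Fin 3 → K) (Γ : Torus (Opn 1 (-1) (al ε)) 1) (m : Fin 3) : ℝ :=
  Γ.reg (symb (sym 1 (-1) (al ε) (m, 0)))

/-- A loop at a real place. -/
theorem exists_place (σ : K →+* ℝ) (ε : Fin 3 → K) (hε : ∀ m, ε m ≠ 0)
    (hsum : ∑ m, ε m = 0) {j k i : Fin 3} (hjk : j ≠ k) (hji : j ≠ i) (hki : k ≠ i) {s : ℝ}
    (hs : σ (ε j) = -(s * σ (ε i))) (h0 : 0 < s) (h1 : s < 1 / 2) :
    ∃ Γ : Torus (Opn 1 (-1) (al ε)) 1, (∀ θ x, Γ.e θ (cst0 1 (-1) (al ε) x) = cpx σ x) ∧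
      rg ε Γ i < 0 ∧ 0 < rg ε Γ i + rg ε Γ k ∧ 0 < rg ε Γ i + rg ε Γ j ∧
      (0 ≤ s ^ 2 - 3 * s + 1 → 0 < rg ε Γ i - rg ε Γ k + rg ε Γ j) := by
  obtain ⟨R, hR, hU, b1, b2, b3, b4⟩ := exists_R h0 h1
  have hl : σ (ε i) ≠ 0 := (map_ne_zero σ).2 (hε i)
  set l : ℝ := σ (ε i) with hl'
  have hk : σ (ε k) = -((1 - s) * l) := by
    have h2 := congrArg σ hsum
    rw [map_sum, map_zero, sum_three (fun m => σ (ε m)) hjk hji hki, hs] at h2
    linear_combination h2
  set e' : Fin 3 → ℝ := fun m => -(σ (ε m) / l) with he'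
  have ei : e' i = -1 := by
    simp only [he']
    rw [← hl', div_self hl]
  have ej : e' j = s := by
    simp only [he']
    rw [hs]
    field_simp
  have ek : e' k = 1 - s := by
    simp only [he']
    rw [hk]
    field_simp
  obtain ⟨Γ, hΓ, hreg⟩ := exists_torus (cpx σ) ε h0 h1 hR hU hl e'
    (fun m => neg_ne_zero.2 (div_ne_zero ((map_ne_zero σ).2 (hε m)) hl))
    (fun m => by
      show ((σ (ε m) : ℝ) : ℂ) = _
      congr 1
      simp only [he']
      field_simp)
    (fun z => by
      rw [prod_three _ hjk hji hki, ei, ej, ek]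
      push_cast
      ring)
  refine ⟨Γ, hΓ, ?_⟩
  have ri : rg ε Γ i = _ := hreg i
  have rj : rg ε Γ j = _ := hreg j
  have rk : rg ε Γ k = _ := hreg k
  rw [ei] at ri
  rw [ej] at rj
  rw [ek] at rk
  rw [ri, rj, rk]
  exact ⟨b1, b2, b3, b4⟩

/-- First determinant. -/
theorem det_A (M : Matrix (Fin 3) (Fin 3) ℝ) (p : Equiv.Perm (Fin 3)) (h1 : ∀ l, M l (p l) < 0)
    (h2 : ∀ l j, j ≠ p l → 0 < M l (p l) + M l j) : M.det ≠ 0 := by
  have hdet := Matrix.det_permute' p M
  have hpos : 0 < (M.submatrix id p).det := by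
    have a : ∀ l, 0 < -M l (p l) := fun l => by linarith [h1 l]
    have b : ∀ l j, j ≠ l → -M l (p l) < M l (p j) := fun l j hj => by
      have := h2 l (p j) (fun h => hj (p.injective h))
      linarith
    rw [Matrix.det_fin_three]
    simp only [Matrix.submatrix_apply, id_eq]
    have a0 := a 0
    have a1 := a 1
    have a2 := a 2
    have b01 := b 0 1 (by decide)
    have b02 := b 0 2 (by decide)
    have b10 := b 1 0 (by decide)
    have b12 := b 1 2 (by decide)
    have b20 := b 2 0 (by decide)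
    have b21 := b 2 1 (by decide)
    set A := -M 0 (p 0) with hA
    set B := -M 1 (p 1) with hB
    set C := -M 2 (p 2) with hC
    have eA : M 0 (p 0) = -A := by rw [hA]; ring
    have eB : M 1 (p 1) = -B := by rw [hB]; ring
    have eC : M 2 (p 2) = -C := by rw [hC]; ring
    rw [eA, eB, eC]
    set P := M 0 (p 1)
    set Q := M 0 (p 2)
    set R := M 1 (p 0)
    set T := M 1 (p 2)
    set U := M 2 (p 0)
    set V := M 2 (p 1)
    have hP : 0 < P := a0.trans b01
    have hQ : 0 < Q := a0.trans b02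
    have hR : 0 < R := a1.trans b10
    have hT : 0 < T := a1.trans b12
    have hU : 0 < U := a2.trans b20
    have hV : 0 < V := a2.trans b21
    have h3 : B * C < T * V := mul_lt_mul'' b12 b21 a1.le a2.le
    have h4 : 0 < A * (T * V - B * C) := mul_pos a0 (by linarith)
    have h5 : 0 < P * (R * C + T * U) := by positivity
    have h6 : 0 < Q * (R * V + B * U) := by positivity
    nlinarith
  intro h
  rw [h, mul_zero] at hdet
  rw [hdet] at hpos
  exact lt_irrefl _ hpos

/-- Second determinant. -/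
theorem det_B (M : Matrix (Fin 3) (Fin 3) ℝ) (p : Equiv.Perm (Fin 3))
    (h : ∀ l, ∑ j ∈ Finset.univ.erase (p l), |M l j| < |M l (p l)|) : M.det ≠ 0 := by
  have hdet := Matrix.det_permute' p M
  have hne : (M.submatrix id p).det ≠ 0 := by
    refine det_ne_zero_of_sum_row_lt_diag fun l => ?_
    have h1 := h l
    have e : ∑ j ∈ Finset.univ.erase l, ‖(M.submatrix id p) l j‖ =
        ∑ j ∈ Finset.univ.erase (p l), |M l j| := by
      refine Finset.sum_bij (fun j _ => p j) ?_ ?_ ?_ ?_
      · intro j hj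
        rw [Finset.mem_erase] at hj ⊢
        exact ⟨fun h => hj.1 (p.injective h), Finset.mem_univ _⟩
      · intro a _ b _ hab
        exact p.injective hab
      · intro b hb
        rw [Finset.mem_erase] at hb
        refine ⟨p.symm b, ?_, by simp⟩
        rw [Finset.mem_erase]
        refine ⟨fun h => hb.1 ?_, Finset.mem_univ _⟩
        rw [← h, Equiv.apply_symm_apply]
      · intro j _
        rfl
    rw [e]
    exact h1
  intro h0
  rw [h0, mul_zero] at hdet
  exact hne hdet

end Pool.Agent.V8H65.K2
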