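import Pool.Agent.V8H65.K2.Ev
import Pool.Agent.V8H65.K2.Br
set_option autoImplicit false

/-!
Inequalities between the three regulator integrals on a circle `|f| = R` close to the unit circle.
-/

namespace Pool.Agent.V8H65.K2

open MeasureTheory Set Filter Topology

open Pool.Agent.TH826.UH (pr NZ nz_circ nz_circ_sub ld_circ pr_const pr_circ pr_div pr_mul pr_neg)

open Pool.Agent.TH690.UR (wn nz_const)

open Pool.Agent.TH826.MK (circ norm_circ contDiff_circ circ_add_one hasDerivAt_circ)

open scoped Real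

variable {s : ℝ}

/-- the function `1 - X/e` -/
noncomputable def gg (s e : ℝ) (f : ℂ) : ℂ := 1 - XX s f / e

/-- the function `s (X - (1 - s)) (X + 1) / X ^ 3` -/
noncomputable def HH (s : ℝ) (f : ℂ) : ℂ :=
  s * (XX s f - (1 - s)) * (XX s f + 1) / XX s f ^ 3

/-- the lower bound `B/A` -/
noncomputable def aa (s : ℝ) : ℝ := cB s / cA s

theorem aa_pos (h0 : 0 < s) (h1 : s < 1 / 2) : 0 < aa s := div_pos (cB_pos h0 h1) (cA_pos s)

theorem analyticAt_gg {f : ℂ} (hf : f ∈ UU s) (e : ℝ) : AnalyticAt ℂ (gg s e) f := by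
  unfold gg
  exact analyticAt_const.sub ((analyticAt_XX hf).mul analyticAt_const)

theorem analyticAt_HH (h0 : 0 < s) (h1 : s < 1 / 2) {f : ℂ} (hf : f ∈ UU s) :
    AnalyticAt ℂ (HH s) f := by
  unfold HH
  have h := analyticAt_XX hf
  exact ((analyticAt_const.mul (h.sub analyticAt_const)).mul (h.add analyticAt_const)).div
    (h.pow 3) (pow_ne_zero 3 (XX_ne_zero h0 h1 hf))

theorem gg_real {f : ℂ} {x : ℝ} (hx : XX s f = x) (e : ℝ) : gg s e f = ((1 - x / e : ℝ) : ℂ) := by
  unfold gg
  rw [hx]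
  push_cast
  rfl

theorem HH_real {f : ℂ} {x : ℝ} (hx : XX s f = x) :
    HH s f = ((s * (x - (1 - s)) * (x + 1) / x ^ 3 : ℝ) : ℂ) := by
  unfold HH
  rw [hx]
  push_cast
  rfl

theorem half_l (h0 : 0 < s) (h1 : s < 1 / 2) : Half 1 (gg s (-1)) := by
  intro z hz
  refine ⟨analyticAt_gg (circle_mem h0 h1 hz) _, ?_⟩
  obtain ⟨x, hx, h2, h3⟩ := XX_circle h0 h1 hz
  have h4 := aa_pos h0 h1
  unfold aa at h4
  rw [gg_real hx, one_mul, Complex.ofReal_re, div_neg, div_one]
  linarith

theorem half_m (h0 : 0 < s) (h1 : s < 1 / 2) : Half 1 (gg s (1 - s)) := by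
  intro z hz
  refine ⟨analyticAt_gg (circle_mem h0 h1 hz) _, ?_⟩
  obtain ⟨x, hx, h2, h3⟩ := XX_circle h0 h1 hz
  rw [gg_real hx, one_mul, Complex.ofReal_re, sub_pos, div_lt_one (by linarith)]
  linarith

theorem half_H (h0 : 0 < s) (h1 : s < 1 / 2) : Half (-1) (HH s) := by
  intro z hz
  refine ⟨analyticAt_HH h0 h1 (circle_mem h0 h1 hz), ?_⟩
  obtain ⟨x, hx, h2, h3⟩ := XX_circle h0 h1 hz
  have h4 := aa_pos h0 h1
  unfold aa at h4
  have hx0 : 0 < x := by linarith
  rw [HH_real hx, neg_one_mul, ← Complex.ofReal_neg, Complex.ofReal_re, ← neg_div]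
  refine div_pos ?_ (by positivity)
  have : 0 < s * ((1 - s) - x) * (x + 1) := by
    have : 0 < (1 - s) - x := by linarith
    positivity
  linarith

/-- `log ‖H‖` on the circle -/
theorem log_H (h0 : 0 < s) (h1 : s < 1 / 2) {z : ℂ} (hz : ‖z‖ = 1) (hz1 : z ≠ 1) {x : ℝ}
    (hx : XX s z = x) :
    x < s ∧ Real.log ‖HH s z‖ = 2 * Real.log ‖z - 1‖ - Real.log 4 - Real.log (1 - x / s) := by
  obtain ⟨x', hx', h2, h3⟩ := XX_circle h0 h1 hz
  have hxx : x' = x := by
    rw [hx] at hx'
    exact_mod_cast hx'.symm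
  subst hxx
  have h4 := aa_pos h0 h1
  unfold aa at h4
  have hx0 : 0 < x' := by linarith
  have hz0 : z ≠ 0 := fun h => by rw [h, norm_zero] at hz; exact zero_ne_one hz
  have hw : 1 - cc z = -(z - 1) ^ 2 / (4 * z) := by
    unfold cc
    field_simp
    ring
  have h5 := XX_eq' (circle_mem h0 h1 hz)
  rw [hw, hx'] at h5
  have hn : ‖(-(z - 1) ^ 2 / (4 * z) : ℂ)‖ = ‖z - 1‖ ^ 2 / 4 := by
    rw [norm_div, norm_neg, norm_pow, norm_mul, hz, Complex.norm_ofNat, mul_one]
  have hzp : 0 < ‖z - 1‖ := norm_pos_iff.2 (sub_ne_zero.2 hz1)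
  have h6 := congrArg norm h5
  have e1 : ‖(x' : ℂ)‖ = x' := by rw [Complex.norm_real, Real.norm_eq_abs, abs_of_pos hx0]
  have e2 : ‖((x' : ℂ) - s)‖ = s - x' := by
    rw [← Complex.ofReal_sub, Complex.norm_real, Real.norm_eq_abs, abs_of_nonpos (by linarith)]
    ring
  have e3 : ‖((x' : ℂ) - (1 - s))‖ = 1 - s - x' := by
    rw [show ((x' : ℂ) - (1 - s)) = ((x' - (1 - s) : ℝ) : ℂ) by push_cast; ring,
      Complex.norm_real, Real.norm_eq_abs, abs_of_nonpos (by linarith)]
    ring
  have e4 : ‖((x' : ℂ) + 1)‖ = x' + 1 := by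
    rw [show ((x' : ℂ) + 1) = ((x' + 1 : ℝ) : ℂ) by push_cast; ring,
      Complex.norm_real, Real.norm_eq_abs, abs_of_pos (by linarith)]
  rw [norm_mul, hn, norm_pow, e1, norm_mul, norm_mul, e2, e3, e4] at h6
  have hlt : x' < s := by
    rcases h3.lt_or_eq with h | h
    · exact h
    · exfalso
      rw [h] at h6
      have : 0 < ‖z - 1‖ ^ 2 / 4 * s ^ 3 := by positivity
      rw [h6] at this
      simp at this
  refine ⟨hlt, ?_⟩
  have hH : ‖HH s z‖ = s * (1 - s - x') * (x' + 1) / x' ^ 3 := by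
    unfold HH
    rw [hx', norm_div, norm_mul, norm_mul, norm_pow, e1, e3, e4, Complex.norm_real,
      Real.norm_eq_abs, abs_of_pos h0]
  have hg : 0 < 1 - x' / s := by
    rw [sub_pos, div_lt_one h0]
    exact hlt
  have h7 : ‖HH s z‖ = ‖z - 1‖ ^ 2 / 4 / (1 - x' / s) := by
    rw [hH, eq_div_iff hg.ne', div_mul_eq_mul_div, div_eq_iff (by positivity)]
    have : 1 - x' / s = (s - x') / s := by field_simp
    rw [this]
    field_simp
    linear_combination (-4 : ℝ) * h6
  rw [h7, Real.log_div (by positivity) hg.ne', Real.log_div (by positivity) (by norm_num),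
    Real.log_pow]
  push_cast
  ring

theorem av_l_pos (h0 : 0 < s) (h1 : s < 1 / 2) : 0 < av (gg s (-1)) := by
  have hcont : Continuous fun t => Real.log ‖gg s (-1) (circ 1 t)‖ :=
    (nz_of_analytic fun t => ⟨((half_l h0 h1) (circ 1 t) (by simp [norm_circ])).1,
      ne_of_re ((half_l h0 h1) (circ 1 t) (by simp [norm_circ])).2⟩ :
      NZ fun t => gg s (-1) (circ 1 t)).cont_log
  have ha := aa_pos h0 h1
  have h2 : Real.log (1 + aa s) ≤ av (gg s (-1)) := by
    have h3 : ∫ _t in (0 : ℝ)..1, Real.log (1 + aa s) ≤ av (gg s (-1)) := by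
      unfold av
      refine intervalIntegral.integral_mono_on (by norm_num)
        (continuous_const.intervalIntegrable _ _) (hcont.intervalIntegrable _ _) fun t _ => ?_
      obtain ⟨x, hx, h2, h3⟩ := XX_circle h0 h1 (f := circ 1 t) (by simp [norm_circ])
      rw [gg_real hx, Complex.norm_real, Real.norm_eq_abs, div_neg, div_one, sub_neg_eq_add]
      unfold aa at ha ⊢
      rw [abs_of_pos (by linarith)]
      exact Real.log_le_log (by linarith) (by linarith)
    simpa using h3
  have h3 : 0 < Real.log (1 + aa s) := Real.log_pos (by linarith)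
  linarith

theorem cont_log_of_half {κ : ℂ} {G : ℂ → ℂ} (h : Half κ G) :
    Continuous fun t => Real.log ‖G (circ 1 t)‖ :=
  (nz_of_analytic fun t => ⟨(h (circ 1 t) (by simp [norm_circ])).1,
      ne_of_re (h (circ 1 t) (by simp [norm_circ])).2⟩ :
      NZ fun t => G (circ 1 t)).cont_log

theorem av_m_add (h0 : 0 < s) (h1 : s < 1 / 2) : av (gg s (1 - s)) + av (gg s (-1)) < 0 := by
  have c1 := cont_log_of_half (half_l h0 h1)
  have c2 := cont_log_of_half (half_m h0 h1)
  have ha := aa_pos h0 h1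
  have h1s : 0 < 1 - s := by linarith
  have h2 : av (gg s (1 - s)) + av (gg s (-1)) ≤ -(aa s * (s / (1 - s))) := by
    unfold av
    rw [← intervalIntegral.integral_add (c2.intervalIntegrable _ _) (c1.intervalIntegrable _ _)]
    have h3 : ∫ t in (0 : ℝ)..1, (Real.log ‖gg s (1 - s) (circ 1 t)‖ +
        Real.log ‖gg s (-1) (circ 1 t)‖) ≤ ∫ _t in (0 : ℝ)..1, -(aa s * (s / (1 - s))) := by
      refine intervalIntegral.integral_mono_on (by norm_num)
        ((c2.add c1).intervalIntegrable _ _) (continuous_const.intervalIntegrable _ _) fun t _ => ?_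
      obtain ⟨x, hx, h2, h3⟩ := XX_circle h0 h1 (f := circ 1 t) (by simp [norm_circ])
      unfold aa at ha ⊢
      have hx0 : 0 < x := by linarith
      have hg : 0 < 1 - x / (1 - s) := by
        rw [sub_pos, div_lt_one h1s]
        linarith
      rw [gg_real hx, gg_real hx, Complex.norm_real, Complex.norm_real, Real.norm_eq_abs,
        Real.norm_eq_abs, div_neg, div_one, sub_neg_eq_add, abs_of_pos (by linarith : 0 < 1 + x),
        abs_of_pos hg, ← Real.log_mul hg.ne' (by linarith)]
      have h4 : (1 - x / (1 - s)) * (1 + x) ≤ 1 - cB s / cA s * (s / (1 - s)) := by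
        have e : (1 - x / (1 - s)) * (1 + x) = 1 - x * (s / (1 - s)) - x ^ 2 / (1 - s) := by
          field_simp
          ring
        have h5 : cB s / cA s * (s / (1 - s)) ≤ x * (s / (1 - s)) := by
          gcongr
        have h6 : 0 ≤ x ^ 2 / (1 - s) := by positivity
        linarith
      have h5 := Real.log_le_sub_one_of_pos (mul_pos hg (by linarith : 0 < 1 + x))
      linarith
    simpa using h3
  have h3 : 0 < aa s * (s / (1 - s)) := by positivity
  linarith

theorem av_H (h0 : 0 < s) (h1 : s < 1 / 2) {F : ℝ → ℝ} (hF : Continuous F) {c : ℝ}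
    (h : ∀ t x : ℝ, circ 1 t ≠ 1 → XX s (circ 1 t) = x → aa s ≤ x → x < s →
      c ≤ F t - Real.log (1 - x / s)) :
    c ≤ Real.log 4 + av (HH s) + ∫ t in (0 : ℝ)..1, F t := by
  have c1 := cont_log_of_half (half_H h0 h1)
  obtain ⟨i1, h2⟩ := av_log
  have h3 : ∫ t in (0 : ℝ)..1, (2 * Real.log ‖circ 1 t - 1‖ + (c - Real.log 4)) ≤
      ∫ t in (0 : ℝ)..1, (Real.log ‖HH s (circ 1 t)‖ + F t) := by
    refine intervalIntegral.integral_mono_on_of_le_Ioo (by norm_num)
      ((i1.const_mul 2).add (continuous_const.intervalIntegrable _ _))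
      ((c1.add hF).intervalIntegrable _ _) fun t ht => ?_
    have hz : circ 1 t ≠ 1 := by
      intro hcon
      unfold circ at hcon
      rw [Complex.ofReal_one, one_mul, Complex.exp_eq_one_iff] at hcon
      obtain ⟨n, hn⟩ := hcon
      have hpi : (2 * (Real.pi : ℂ) * Complex.I) ≠ 0 := Complex.two_pi_I_ne_zero
      have h5 : ((t : ℝ) : ℂ) = n := by
        have : (2 * (Real.pi : ℂ) * Complex.I) * (t - n) = 0 := by linear_combination hn
        have := (mul_eq_zero.1 this).resolve_left hpi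
        linear_combination this
      have h6 : t = n := by exact_mod_cast h5
      have h7 := ht.1
      have h8 := ht.2
      rw [h6] at h7 h8
      have h9 : (0 : ℤ) < n := by exact_mod_cast h7
      have h10 : n < (1 : ℤ) := by exact_mod_cast h8
      omega
    obtain ⟨x, hx, h4, h5⟩ := XX_circle h0 h1 (f := circ 1 t) (by simp [norm_circ])
    obtain ⟨h6, h7⟩ := log_H h0 h1 (by simp [norm_circ]) hz hx
    rw [h7]
    have h8 := h t x hz hx h4 h6
    linarith
  rw [intervalIntegral.integral_add (i1.const_mul 2) (continuous_const.intervalIntegrable _ _),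
    intervalIntegral.integral_const_mul, h2,
    intervalIntegral.integral_add (c1.intervalIntegrable _ _) (hF.intervalIntegrable _ _)] at h3
  simp only [intervalIntegral.integral_const, sub_zero, smul_eq_mul, one_mul] at h3
  unfold av
  linarith

theorem av_s_sub (h0 : 0 < s) (h1 : s < 1 / 2) :
    av (gg s (-1)) < Real.log 4 + av (HH s) := by
  have c1 := cont_log_of_half (half_l h0 h1)
  have ha := aa_pos h0 h1
  have h1s : 0 < 1 - s := by linarith
  have hc : 0 < aa s * ((1 - s) / s) := by positivity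
  have h2 := av_H h0 h1 (F := fun t => -Real.log ‖gg s (-1) (circ 1 t)‖) c1.neg
    (c := aa s * ((1 - s) / s)) (fun t x hz hx h4 h6 => by
      have hx0 : 0 < x := by linarith
      have hg : 0 < 1 - x / s := by
        rw [sub_pos, div_lt_one h0]
        exact h6
      rw [gg_real hx, Complex.norm_real, Real.norm_eq_abs, div_neg, div_one, sub_neg_eq_add,
        abs_of_pos (by linarith : 0 < 1 + x)]
      have h5 := Real.log_le_sub_one_of_pos (mul_pos hg (by linarith : 0 < 1 + x))
      rw [Real.log_mul hg.ne' (by linarith)] at h5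
      have e : (1 - x / s) * (1 + x) = 1 - x * ((1 - s) / s) - x ^ 2 / s := by
        field_simp
        ring
      have h7 : aa s * ((1 - s) / s) ≤ x * ((1 - s) / s) := by gcongr
      have h8 : 0 ≤ x ^ 2 / s := by positivity
      linarith)
  rw [intervalIntegral.integral_neg] at h2
  unfold av at h2 ⊢
  linarith

theorem av_s_sub' (h0 : 0 < s) (h1 : s < 1 / 2) (h38 : 0 ≤ s ^ 2 - 3 * s + 1) :
    av (gg s (-1)) - av (gg s (1 - s)) < Real.log 4 + av (HH s) := by
  have c1 := cont_log_of_half (half_l h0 h1)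
  have c2 := cont_log_of_half (half_m h0 h1)
  have ha := aa_pos h0 h1
  have h1s : 0 < 1 - s := by linarith
  have hc : 0 < aa s ^ 2 / s := by positivity
  have h2 := av_H h0 h1 (F := fun t => Real.log ‖gg s (1 - s) (circ 1 t)‖ -
    Real.log ‖gg s (-1) (circ 1 t)‖) (c2.sub c1)
    (c := aa s ^ 2 / s) (fun t x hz hx h4 h6 => by
      have hx0 : 0 < x := by linarith
      have hg : 0 < 1 - x / s := by
        rw [sub_pos, div_lt_one h0]
        exact h6
      have hgm : 0 < 1 - x / (1 - s) := by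
        rw [sub_pos, div_lt_one h1s]
        linarith
      have hgm1 : 1 - x / (1 - s) ≤ 1 := by
        have : 0 ≤ x / (1 - s) := by positivity
        linarith
      rw [gg_real hx, gg_real hx, Complex.norm_real, Complex.norm_real, Real.norm_eq_abs,
        Real.norm_eq_abs, div_neg, div_one, sub_neg_eq_add, abs_of_pos (by linarith : 0 < 1 + x),
        abs_of_pos hgm]
      have h5 := Real.log_le_sub_one_of_pos (div_pos (mul_pos hg (by linarith : 0 < 1 + x)) hgm)
      rw [Real.log_div (mul_pos hg (by linarith : 0 < 1 + x)).ne' hgm.ne',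
        Real.log_mul hg.ne' (by linarith)] at h5
      have e : (1 - x / (1 - s)) - (1 - x / s) * (1 + x) =
          x * ((s ^ 2 - 3 * s + 1) / (s * (1 - s))) + x ^ 2 / s := by
        field_simp
        ring
      have h7 : 0 ≤ x * ((s ^ 2 - 3 * s + 1) / (s * (1 - s))) := by positivity
      have h8 : aa s ^ 2 / s ≤ x ^ 2 / s := by gcongr
      have h9 : (1 - x / s) * (1 + x) / (1 - x / (1 - s)) ≤ 1 - aa s ^ 2 / s := by
        rw [div_le_iff₀ hgm]
        have h10 : (1 - aa s ^ 2 / s) * (1 - x / (1 - s)) =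
          (1 - x / (1 - s)) - aa s ^ 2 / s * (1 - x / (1 - s)) := by ring
        have h11 : aa s ^ 2 / s * (1 - x / (1 - s)) ≤ aa s ^ 2 / s * 1 := by gcongr
        linarith
      linarith)
  rw [intervalIntegral.integral_sub (c2.intervalIntegrable _ _) (c1.intervalIntegrable _ _)] at h2
  unfold av at h2 ⊢
  linarith

end Pool.Agent.V8H65.K2
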