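import Pool.Agent.V8H65.K2.Plc
set_option autoImplicit false

/-!
Solutions of the unit equation `ε 0 + ε 1 + ε 2 = 0` in totally real cubic fields.
-/

namespace Pool.Agent.V8H65.K2

open Pool.Agent.TH826.MK (Torus symb)

open Pool.Agent.TH265.V

open NumberField

section detAB

variable {K : Type*} [Field K]

theorem det_of_A (s : Fin 3 → (K →+* ℝ)) (ε : Fin 3 → K) (hε : ∀ m, ε m ≠ 0)
    (hsum : ∑ m, ε m = 0) (hne : ∀ m m', m ≠ m' → ε m ≠ ε m') (p : Equiv.Perm (Fin 3))
    (h : ∀ l j k, j ≠ k → j ≠ p l → k ≠ p l → 0 < s l (ε j) * s l (ε k)) :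
    ∃ Γ : Fin 3 → Torus (Opn 1 (-1) (al ε)) 1,
      (∀ l θ x, (Γ l).e θ (cst0 1 (-1) (al ε) x) = cpx (s l) x) ∧
      (Matrix.of fun l m => rg ε (Γ l) m).det ≠ 0 := by
  have hex : ∀ l, ∃ Γ : Torus (Opn 1 (-1) (al ε)) 1,
      (∀ θ x, Γ.e θ (cst0 1 (-1) (al ε) x) = cpx (s l) x) ∧ rg ε Γ (p l) < 0 ∧
      ∀ m, m ≠ p l → 0 < rg ε Γ (p l) + rg ε Γ m := by
    intro l
    -- the two other indices
    have key : ∀ j k, j ≠ k → j ≠ p l → k ≠ p l → |s l (ε j)| < |s l (ε k)| →
        ∃ Γ : Torus (Opn 1 (-1) (al ε)) 1,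
      (∀ θ x, Γ.e θ (cst0 1 (-1) (al ε) x) = cpx (s l) x) ∧ rg ε Γ (p l) < 0 ∧
      ∀ m, m ≠ p l → 0 < rg ε Γ (p l) + rg ε Γ m := by
      intro j k hjk hji hki hlt
      have hpos := h l j k hjk hji hki
      have h2 := congrArg (s l) hsum
      rw [map_sum, map_zero, sum_three (fun m => s l (ε m)) hjk hji hki] at h2
      have ha : s l (ε j) ≠ 0 := (map_ne_zero _).2 (hε j)
      have hb : s l (ε k) ≠ 0 := (map_ne_zero _).2 (hε k)
      have hc : s l (ε (p l)) ≠ 0 := (map_ne_zero _).2 (hε _)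
      set a := s l (ε j) with ha'
      set b := s l (ε k) with hb'
      set c := s l (ε (p l)) with hc'
      have hcab : c = -(a + b) := by linarith
      have hab0 : a + b ≠ 0 := by
        intro h0
        apply hc
        rw [hcab, h0, neg_zero]
      have hr : a / (a + b) = |a| / (|a| + |b|) := by
        rcases lt_or_gt_of_ne ha with h3 | h3
        · have h4 : b < 0 := by
            by_contra h5
            push Not at h5
            nlinarith
          rw [abs_of_neg h3, abs_of_neg h4, ← neg_add, neg_div_neg_eq]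
        · have h4 : 0 < b := by
            by_contra h5
            push Not at h5
            nlinarith
          rw [abs_of_pos h3, abs_of_pos h4]
      have hpa : 0 < |a| := abs_pos.2 ha
      have hpb : 0 < |b| := abs_pos.2 hb
      obtain ⟨Γ, hΓ, b1, b2, b3, -⟩ := exists_place (s l) ε hε hsum hjk hji hki
        (s := a / (a + b)) (by
          rw [← ha', ← hc', hcab]
          field_simp) (by rw [hr]; positivity) (by
          rw [hr, div_lt_div_iff₀ (by positivity) (by norm_num)]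
          linarith)
      refine ⟨Γ, hΓ, b1, fun m hm => ?_⟩
      have hm' : m = j ∨ m = k ∨ m = p l := by
        have : m ∈ ({j, k, p l} : Finset (Fin 3)) := by
          rw [← univ_three j k (p l) hjk hji hki]
          exact Finset.mem_univ _
        simpa using this
      rcases hm' with rfl | rfl | h6
      · exact b3
      · exact b2
      · exact absurd h6 hm
    obtain ⟨j, k, hjk, hji, hki⟩ : ∃ j k, j ≠ k ∧ j ≠ p l ∧ k ≠ p l := by
      have : ∀ i : Fin 3, ∃ j k, j ≠ k ∧ j ≠ i ∧ k ≠ i := by decide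
      exact this (p l)
    rcases lt_trichotomy |s l (ε j)| |s l (ε k)| with h3 | h3 | h3
    · exact key j k hjk hji hki h3
    · exfalso
      have hpos := h l j k hjk hji hki
      rcases abs_eq_abs.1 h3 with h4 | h4
      · exact hne j k hjk ((s l).injective h4)
      · rw [h4] at hpos
        nlinarith [mul_self_nonneg (s l (ε k))]
    · exact key k j hjk.symm hki hji h3
  choose Γ hΓ b1 b2 using hex
  refine ⟨Γ, hΓ, det_A _ p (fun l => b1 l) fun l j hj => b2 l j hj⟩

theorem det_of_B (s : Fin 3 → (K →+* ℝ)) (ε : Fin 3 → K) (hε : ∀ m, ε m ≠ 0)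
    (hsum : ∑ m, ε m = 0) (p : Equiv.Perm (Fin 3))
    (h : ∀ l, ∃ k i, p l ≠ k ∧ p l ≠ i ∧ k ≠ i ∧ ∃ r : ℝ, s l (ε (p l)) = -(r * s l (ε i)) ∧
      0 < r ∧ r ≤ 0.38) :
    ∃ Γ : Fin 3 → Torus (Opn 1 (-1) (al ε)) 1,
      (∀ l θ x, (Γ l).e θ (cst0 1 (-1) (al ε) x) = cpx (s l) x) ∧
      (Matrix.of fun l m => rg ε (Γ l) m).det ≠ 0 := by
  have hex : ∀ l, ∃ Γ : Torus (Opn 1 (-1) (al ε)) 1,
      (∀ θ x, Γ.e θ (cst0 1 (-1) (al ε) x) = cpx (s l) x) ∧
      ∑ j ∈ Finset.univ.erase (p l), |rg ε Γ j| < |rg ε Γ (p l)| := by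
    intro l
    obtain ⟨k, i, hjk, hji, hki, r, hr, h0, h1⟩ := h l
    obtain ⟨Γ, hΓ, b1, b2, b3, b4⟩ := exists_place (s l) ε hε hsum hjk hji hki hr h0
      (by norm_num at h1 ⊢; linarith)
    refine ⟨Γ, hΓ, ?_⟩
    have b5 := b4 (by norm_num at h1; nlinarith)
    have e : Finset.univ.erase (p l) = {k, i} := by
      rw [univ_three (p l) k i hjk hji hki, Finset.erase_insert (by simp [hjk, hji])]
    rw [e, Finset.sum_pair hki, abs_of_neg b1, abs_of_pos (by linarith : 0 < rg ε Γ k),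
      abs_of_pos (by linarith : 0 < rg ε Γ (p l))]
    linarith
  choose Γ hΓ b1 using hex
  exact ⟨Γ, hΓ, det_B _ p fun l => b1 l⟩

end detAB

section cubic

variable {K : Type*} [Field K] [NumberField K]

theorem bij (hK : Module.finrank ℚ K = 3) {s : Fin 3 → (K →+* ℝ)} (hs : Function.Injective s) :
    Function.Bijective fun l => (cpx (s l)).toRatAlgHom := by
  classical
  rw [Fintype.bijective_iff_injective_and_card]
  constructor
  · intro l l' h
    apply hs
    ext x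
    have h1 := congrArg (fun f : K →ₐ[ℚ] ℂ => f x) h
    have h2 : ((s l x : ℝ) : ℂ) = (s l' x : ℝ) := h1
    exact_mod_cast h2
  · rw [Fintype.card_fin, AlgHom.card, hK]

theorem norm_eq (hK : Module.finrank ℚ K = 3) {s : Fin 3 → (K →+* ℝ)}
    (hs : Function.Injective s) (x : K) :
    ((Algebra.norm ℚ x : ℚ) : ℝ) = ∏ l, s l x := by
  have h1 := Algebra.norm_eq_prod_embeddings ℚ ℂ x
  rw [← (bij hK hs).prod_comp] at h1
  have h2 : (((Algebra.norm ℚ x : ℚ) : ℝ) : ℂ) = ((∏ l, s l x : ℝ) : ℂ) := by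
    rw [Complex.ofReal_prod]
    exact h1
  exact_mod_cast h2

theorem trace_eq (hK : Module.finrank ℚ K = 3) {s : Fin 3 → (K →+* ℝ)}
    (hs : Function.Injective s) (x : K) :
    ((Algebra.trace ℚ K x : ℚ) : ℝ) = ∑ l, s l x := by
  have h1 := trace_eq_sum_embeddings (K := ℚ) (L := K) ℂ (x := x)
  rw [← (bij hK hs).sum_comp] at h1
  have h2 : (((Algebra.trace ℚ K x : ℚ) : ℝ) : ℂ) = ((∑ l, s l x : ℝ) : ℂ) := by
    rw [Complex.ofReal_sum]
    exact h1
  exact_mod_cast h2

theorem unit_norm (hK : Module.finrank ℚ K = 3) {s : Fin 3 → (K →+* ℝ)}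
    (hs : Function.Injective s) (e : (𝓞 K)ˣ) : |∏ l, s l (e : K)| = 1 := by
  have h1 := NumberField.Units.norm K e
  rw [← norm_eq hK hs]
  exact_mod_cast h1

theorem int_trace (hK : Module.finrank ℚ K = 3) {s : Fin 3 → (K →+* ℝ)}
    (hs : Function.Injective s) (x : 𝓞 K) : ∃ T : ℤ, ∑ l, s l (algebraMap (𝓞 K) K x) = T := by
  refine ⟨Algebra.trace ℤ (𝓞 K) x, ?_⟩
  have h1 := trace_eq hK hs (algebraMap (𝓞 K) K x)
  rw [← h1]
  have h2 := Algebra.coe_trace_int (K := K) x
  rw [← h2]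
  push_cast
  rfl

omit [NumberField K] in
/-- The numbers `x`, `y`, `z` are the roots of `t ^ 3 - T t ^ 2 + (T - 1) t - 1`. -/
theorem core {x y z : ℝ} (hx : 0 < x) (hx1 : x < 1) (hy : 0 < y) (hy1 : y < 1) (hz : 1 < z)
    (hN : |x * y * z| = 1) (hN' : |(1 - x) * (1 - y) * (1 - z)| = 1) {T : ℤ}
    (hT : x + y + z = T) : ((x < 0.38 ∧ 0.62 < y) ∨ (y < 0.38 ∧ 0.62 < x)) ∧ 4 < z := by
  have h1 : x * y * z = 1 := by
    rwa [abs_of_pos (by positivity)] at hN
  have h2 : (1 - x) * (1 - y) * (1 - z) = -1 := by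
    have : (1 - x) * (1 - y) * (1 - z) < 0 :=
      mul_neg_of_pos_of_neg (mul_pos (by linarith) (by linarith)) (by linarith)
    rw [abs_of_neg this] at hN'
    linarith
  have hf : ∀ t : ℝ, (t - x) * (t - y) * (t - z) = t ^ 3 - T * t ^ 2 + (T - 1) * t - 1 := by
    intro t
    rw [← hT]
    linear_combination t * h2 + (t - 1) * h1
  have hx2 := hf x
  rw [sub_self, zero_mul, zero_mul] at hx2
  have hT5 : (5 : ℝ) < T := by
    have h3 : 0 < x * (1 - x) := mul_pos hx (by linarith)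
    have h4 : 0 < (T - 5 : ℝ) * (x * (1 - x)) := by
      have h5 : (T - 5 : ℝ) * (x * (1 - x)) = (1 - 2 * x) ^ 2 + x ^ 2 * (1 - x) := by
        linear_combination (-1 : ℝ) * hx2
      rw [h5]
      have : 0 < x ^ 2 * (1 - x) := mul_pos (by positivity) (by linarith)
      positivity
    have h6 := (mul_pos_iff_of_pos_right h3).1 h4
    linarith
  have hT6 : (6 : ℝ) ≤ T := by
    have h3 : (5 : ℤ) < T := by exact_mod_cast hT5
    have h4 : (6 : ℤ) ≤ T := h3
    exact_mod_cast h4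
  have hz4 : 4 < z := by linarith
  refine ⟨?_, hz4⟩
  have h38 := hf 0.38
  have h62 := hf 0.62
  have g38 : 0 < (0.38 - x) * (0.38 - y) * (0.38 - z) := by
    rw [h38]
    norm_num
    linarith
  have g62 : 0 < (0.62 - x) * (0.62 - y) * (0.62 - z) := by
    rw [h62]
    norm_num
    linarith
  have k38 : (0.38 - x) * (0.38 - y) < 0 := by
    by_contra h
    push Not at h
    have : (0.38 - x) * (0.38 - y) * (0.38 - z) ≤ 0 :=
      mul_nonpos_of_nonneg_of_nonpos h (by norm_num; linarith)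
    linarith
  have k62 : (0.62 - x) * (0.62 - y) < 0 := by
    by_contra h
    push Not at h
    have : (0.62 - x) * (0.62 - y) * (0.62 - z) ≤ 0 :=
      mul_nonpos_of_nonneg_of_nonpos h (by norm_num; linarith)
    linarith
  rcases mul_neg_iff.1 k38 with ⟨a1, a2⟩ | ⟨a1, a2⟩
  · left
    refine ⟨by linarith, ?_⟩
    rcases mul_neg_iff.1 k62 with ⟨b1, b2⟩ | ⟨b1, b2⟩
    · linarith
    · exfalso
      norm_num at a1 b1
      linarith
  · right
    refine ⟨by linarith, ?_⟩
    rcases mul_neg_iff.1 k62 with ⟨b1, b2⟩ | ⟨b1, b2⟩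
    · exfalso
      norm_num at a2 b2
      linarith
    · linarith

end cubic

end Pool.Agent.V8H65.K2
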